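import Pool.Agent.H29.DPU.Defs
import Pool.Agent.H3.DPC.BRG

/-!
# DPU: the traces in terms of families
-/

set_option autoImplicit false

namespace Pool.DPC

open Polynomial Complex

/-- a product of different primes up to `N` is at most `N !` -/
theorem cn_le (C : Finset Nat.Primes) (N : ℕ) (h : ∀ l ∈ C, (l : ℕ) ≤ N) :
    cn C ≤ N.factorial := by
  classical
  refine Nat.le_of_dvd N.factorial_pos ?_
  induction C using Finset.induction_on with
  | empty => exact one_dvd _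
  | insert p C hp ih =>
    have h1 : cn (insert p C) = (p : ℕ) * cn C := Finset.prod_insert hp
    rw [h1]
    refine Nat.Coprime.mul_dvd_of_dvd_of_dvd ?_ ?_ (ih fun l hl => h l (Finset.mem_insert_of_mem hl))
    · refine Nat.Coprime.prod_right fun l hl => (Nat.coprime_primes p.2 l.2).2 fun he => ?_
      exact hp (by rw [Subtype.ext he]; exact hl)
    · exact Nat.dvd_factorial p.2.pos (h p (Finset.mem_insert_self _ _))

open BRG3 in
open Classical in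
/-- BRGU. -/
theorem t_BRGU (h1 : TD1Stmt) (h2 : TD2Stmt) (h3 : TD3Stmt) (hV : VCRStmt) (hS : SUPStmt)
    (S : Set ℕ) (N : ℕ) (k : IntermediateField ℚ ℂ) (n d : ℕ) (Om : ℝ) (P : ℕ → ℚ[X]) (U : Set ℂ)
    (L : (f : ℕ) → DirichletCharacter ℂ f → ℂ → ℂ) (hn : 0 < n) (hW : Weil d P) (hU : Region U)
    (hL : HL n P U L)
    (hT : ∀ (f : ℕ) (Y : Subgroup (DirichletCharacter ℂ f)), f ≤ N.factorial →
      FieldData n f Y →
      (∃ a b, Y = Subgroup.closure {a, b} ∧ ∃ q : ℕ, q.Prime ∧ b ^ q = 1) →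
      (∃ l ∈ S, l.Prime ∧ l ∣ f) →
      ∑ᶠ psi ∈ (Y : Set (DirichletCharacter ℂ f)), normValue d Om (L f) psi ∈ k)
    (φ χ : Ch) (hφ : Tame n φ) (hχ : Tame n χ) (hq : ∃ q : ℕ, q.Prime ∧ χ ^ q = 1)
    (hit : Tst S N (sup φ ∪ sup χ)) :
    ∑ᶠ ψ ∈ (Subgroup.closure {φ, χ} : Set Ch),
      wl (V0 d Om L) (Rf d P) (sup φ ∪ sup χ) ψ ∈ k := by
  obtain ⟨C, hC⟩ : ∃ C, C = supF φ ∪ supF χ := ⟨_, rfl⟩
  have hCc : (C : Set Nat.Primes) = sup φ ∪ sup χ := by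
    rw [hC, Finset.coe_union, coe_supF hφ.fin, coe_supF hχ.fin]
  have hcl : ∀ ψ ∈ Subgroup.closure {φ, χ}, Tame n ψ ∧ sup ψ ⊆ C := fun ψ hψ => by
    rw [hCc]
    exact tame_closure hS hφ hχ hψ hn
  have hmap : (Subgroup.closure {φ, χ}).map (hom h1 C) =
      Subgroup.closure {toDC C φ, toDC C χ} := by
    rw [MonoidHom.map_closure, Set.image_pair]
    rfl
  have hF : FieldData n (cn C) (Subgroup.closure {toDC C φ, toDC C χ}) := by
    refine ⟨(h3.2.2.2 C).1, fun psi hpsi => ?_, fun psi hpsi => ?_, fun l hl hlf => ?_⟩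
    · rw [← hmap] at hpsi
      obtain ⟨ψ, hψ, rfl⟩ := hpsi
      obtain ⟨k1, k2⟩ := hcl ψ hψ
      exact (h1.2.2.2 C ψ k2).2 k1.even
    · rw [← hmap] at hpsi
      obtain ⟨ψ, hψ, rfl⟩ := hpsi
      rw [← map_pow, (hcl ψ hψ).1.exp, map_one]
    · have hlC : (⟨l, hl⟩ : Nat.Primes) ∈ C := ((h3.2.2.2 C).2 ⟨l, hl⟩).1 hlf
      have h5 : (⟨l, hl⟩ : Nat.Primes) ∈ sup φ ∪ sup χ := by
        rw [← hCc]
        exact hlC
      rcases h5 with h5 | h5
      · refine ⟨toDC C φ, Subgroup.subset_closure (by simp), ?_⟩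
        exact (h3.1 C φ ⟨l, hl⟩ (hcl φ (Subgroup.subset_closure (by simp))).2 hlC).2 h5
      · refine ⟨toDC C χ, Subgroup.subset_closure (by simp), ?_⟩
        exact (h3.1 C χ ⟨l, hl⟩ (hcl χ (Subgroup.subset_closure (by simp))).2 hlC).2 h5
  have hle : cn C ≤ N.factorial := by
    refine cn_le C N fun l hl => hit.2 l ?_
    rw [← hCc]
    exact hl
  have h6 := hT (cn C) _ hle hF ⟨_, _, rfl, by
    obtain ⟨q, hq, hχq⟩ := hq
    refine ⟨q, hq, ?_⟩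
    have h8 : hom h1 C (χ ^ q) = 1 := by rw [hχq, map_one]
    rw [map_pow] at h8
    exact h8⟩ (by
    obtain ⟨⟨l, hl, hlS⟩, -⟩ := hit
    refine ⟨(l : ℕ), hlS, l.2, ((h3.2.2.2 C).2 l).2 ?_⟩
    rw [← hCc] at hl
    exact hl)
  rw [← hmap, Subgroup.coe_map] at h6
  have hinj : Set.InjOn (hom h1 C) (Subgroup.closure {φ, χ} : Set Ch) := fun x hx y hy hxy =>
    h2.1 C x y (hcl x hx).2 (hcl y hy).2 hxy
  rw [finsum_mem_image hinj] at h6
  have h7 : ∑ᶠ ψ ∈ (Subgroup.closure {φ, χ} : Set Ch),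
      wl (V0 d Om L) (Rf d P) (sup φ ∪ sup χ) ψ = ∑ᶠ ψ ∈ (Subgroup.closure {φ, χ} : Set Ch),
      normValue d Om (L (cn C)) (hom h1 C ψ) := by
    refine finsum_mem_congr rfl fun ψ hψ => ?_
    obtain ⟨k1, k2⟩ := hcl ψ hψ
    rw [← hCc, ← hV n d Om P U L hW hU hL C ψ k1 k2]
    rfl
  rw [h7]
  exact h6

end Pool.DPC
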