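import Pool.Agent.H29.DPU.Stc

/-!
# DPU: characters with two primes of ramification index `q`
-/

set_option autoImplicit false

namespace Pool.DPC

open Polynomial Complex

/-- STAU -/
theorem t_STAU (hMID : MIDUStmt) (hDIR : DIRTStmt) (hAUX : AUXStmt) (hO : ORTTStmt)
    (hEVP : EVPStmt) (hSUP : SUPStmt) {S : Set ℕ} {n d : ℕ} {β : ℝ → ℕ} (hS : Rich S)
    (hn : 0 < n) (hnd : Gd n d) (φ : Ch) (q : Nat.Primes) (hφ : Tame n φ) (hq2 : (q : ℕ) ≠ 2)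
    (hqm : (q : ℕ) ∣ orderOf φ) (hq1 : φ q ^ 2 = 1) (hIH : IHU S n d β (orderOf φ))
    (hTwo : Two (q : ℕ) φ) : Kill S n d β φ := by
  obtain ⟨s1, -, s3, -, -, htmul, htpow, htord, -⟩ := hSUP
  have hE := hEVP
  obtain ⟨-, -, -, hpair, hpn⟩ := hE
  obtain ⟨l₁, l₂, hl12, hφ1, hφ2, hφ1q, hφ2q⟩ := hTwo
  have hq : (q : ℕ).Prime := q.2
  have hqfact : Fact (q : ℕ).Prime := ⟨hq⟩
  set m := orderOf φ with hm
  have hm0 : 0 < m := (htord n φ hn hφ).1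
  have hmn : m ∣ n := (htord n φ hn hφ).2
  have hqn : (q : ℕ) ∣ n := hqm.trans hmn
  have hmd : Gd m d := hnd.of_dvd hmn
  have hl1q : l₁ ≠ q := by
    rintro rfl
    have h3 := STA.eq_one_of_two (k := 1) hq hq2 hφ1q (by rw [mul_one]; exact hq1)
    rw [pow_one] at h3
    exact hφ1 h3
  have hl2q : l₂ ≠ q := by
    rintro rfl
    have h3 := STA.eq_one_of_two (k := 1) hq hq2 hφ2q (by rw [mul_one]; exact hq1)
    rw [pow_one] at h3
    exact hφ2 h3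
  set ρ := STA.comp φ l₁ with hρ
  have hρq : ρ ^ (q : ℕ) = 1 := by
    funext l
    rw [Pi.pow_apply, Pi.one_apply]
    by_cases hl : l = l₁
    · subst hl
      rw [hρ, STA.comp_same, hφ1q]
    · rw [hρ, STA.comp_ne φ hl, one_pow]
  have hρdvd : ∀ k, (q : ℕ) ∣ k → ρ ^ k = 1 := by
    rintro k ⟨c, rfl⟩
    rw [pow_mul, hρq, one_pow]
  have hρt : Tame n ρ := ⟨by rw [hρ, STA.sup_comp φ hφ1]; exact Set.finite_singleton _,
    hρdvd n hqn, STA.even_comp φ hq hq2 hφ1q⟩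
  set φ' := φ * ρ with hφ'
  have hφt : Tame n φ' := htmul n φ ρ hφ hρt
  have hφ'1 : φ' l₁ = φ l₁ ^ 2 := by
    rw [hφ', Pi.mul_apply, hρ, STA.comp_same, sq]
  have hφ'l : ∀ l, l ≠ l₁ → φ' l = φ l := by
    intro l hl
    rw [hφ', Pi.mul_apply, hρ, STA.comp_ne φ hl, mul_one]
  have hsup : sup φ' = sup φ := by
    ext l
    simp only [sup, Set.mem_ofPred_eq]
    by_cases hl : l = l₁
    · subst hl
      rw [hφ'1]
      constructor
      · intro _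
        exact hφ1
      · intro _ h3
        have h4 := STA.eq_one_of_two (k := 1) hq hq2 hφ1q (by rw [mul_one]; exact h3)
        rw [pow_one] at h4
        exact hφ1 h4
    · rw [hφ'l l hl]
  have hord : orderOf φ' = m := by
    apply Nat.dvd_antisymm
    · apply orderOf_dvd_of_pow_eq_one
      rw [hφ', mul_pow, hρdvd m hqm, mul_one, hm, pow_orderOf_eq_one]
    · apply orderOf_dvd_of_pow_eq_one
      have h3 := pow_orderOf_eq_one φ'
      funext l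
      have h4 : φ' l ^ orderOf φ' = 1 := congrFun h3 l
      rw [Pi.pow_apply, Pi.one_apply]
      by_cases hl : l = l₁
      · subst hl
        rw [hφ'1, ← pow_mul] at h4
        exact STA.eq_one_of_two hq hq2 hφ1q h4
      · rwa [hφ'l l hl] at h4
  have hφ'q : φ' q ^ 2 = 1 := by rw [hφ'l q hl1q.symm, hq1]
  -- the change of u
  obtain ⟨a, ha⟩ := MulChar.ne_one_iff.1 hφ1
  obtain ⟨b0, hb0⟩ := MulChar.ne_one_iff.1 hφ2
  set ξ := φ l₁ (a : ZMod (l₁ : ℕ)) with hξ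
  set η := φ l₂ (b0 : ZMod (l₂ : ℕ)) with hη
  have hξq : ξ ^ (q : ℕ) = 1 := by
    have h4 : (φ l₁ ^ (q : ℕ)) (a : ZMod (l₁ : ℕ)) = ξ ^ (q : ℕ) :=
      MulChar.pow_apply' _ hq.ne_zero _
    rw [← h4, hφ1q, MulChar.one_apply_coe]
  have hηq : η ^ (q : ℕ) = 1 := by
    have h4 : (φ l₂ ^ (q : ℕ)) (b0 : ZMod (l₂ : ℕ)) = η ^ (q : ℕ) :=
      MulChar.pow_apply' _ hq.ne_zero _
    rw [← h4, hφ2q, MulChar.one_apply_coe]
  have hξ0 : ξ ≠ 0 := by
    intro h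
    rw [h, zero_pow hq.ne_zero] at hξq
    exact zero_ne_one hξq
  have hηp : IsPrimitiveRoot η (q : ℕ) := by
    have h3 : orderOf η = (q : ℕ) := orderOf_eq_prime hηq hb0
    rw [← h3]
    exact IsPrimitiveRoot.orderOf η
  have : NeZero (q : ℕ) := ⟨hq.ne_zero⟩
  obtain ⟨j, -, hj⟩ := hηp.eq_pow_of_pow_eq_one (ξ := (ξ⁻¹) ^ 2) (by
    rw [← pow_mul, mul_comm 2, pow_mul, inv_pow, hξq, inv_one, one_pow])
  set v : (l : Nat.Primes) → (ZMod (l : ℕ))ˣ := Pi.mulSingle l₁ a * Pi.mulSingle l₂ (b0 ^ j)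
    with hv
  have hvq : v q = 1 := by
    rw [hv, Pi.mul_apply, Pi.mulSingle_eq_of_ne hl1q.symm, Pi.mulSingle_eq_of_ne hl2q.symm,
      mul_one]
  have hpv : pair φ v = ξ * (ξ⁻¹) ^ 2 := by
    rw [hv, (hpair φ φ _ _ hφ.fin hφ.fin).2.1, STA.pair_single, STA.pair_single,
      Units.val_pow_eq_pow_val, map_pow, ← hη, hj]
  have hρv : pair ρ v = ξ := by
    rw [hv, (hpair ρ ρ _ _ hρt.fin hρt.fin).2.1, STA.pair_single, STA.pair_single, hρ,
      STA.comp_same, STA.comp_ne φ hl12.symm, MulChar.one_apply_coe, mul_one]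
  have hφ'v : pair φ' v = 1 := by
    rw [hφ', (hpair φ ρ v v hφ.fin hρt.fin).1, hpv, hρv]
    field_simp
  have hinj : ∀ w w' : ℕ → ℂ, (∀ u : Un, u q = 1 →
      ∑ i ∈ un m, w i * ((pair φ u)⁻¹) ^ (d * i) =
        ∑ i ∈ un m, w' i * ((pair φ' u)⁻¹) ^ (d * i)) →
      (∀ i ∈ un m, w i = 0) ∧ ∀ i ∈ un m, w' i = 0 := by
    intro w w' hcmp
    have hkey : ∀ u : (l : Nat.Primes) → (ZMod (l : ℕ))ˣ, u q = 1 →
        ∑ i ∈ un m, (w i * (ξ ^ (d * i) - 1)) * ((pair φ u)⁻¹) ^ (d * i) = 0 := by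
      intro u hu
      have e1 := hcmp u hu
      have e2 := hcmp (u * v) (by rw [Pi.mul_apply, hu, hvq, mul_one])
      rw [(hpair φ φ u v hφ.fin hφ.fin).2.1, (hpair φ' φ' u v hφt.fin hφt.fin).2.1, hφ'v,
        mul_one, ← e1, hpv] at e2
      have e3 : ∀ i, (w i * (ξ ^ (d * i) - 1)) * ((pair φ u)⁻¹) ^ (d * i) =
          w i * ((pair φ u * (ξ * (ξ⁻¹) ^ 2))⁻¹) ^ (d * i) -
            w i * ((pair φ u)⁻¹) ^ (d * i) := by
        intro i
        have h3 : (pair φ u * (ξ * (ξ⁻¹) ^ 2))⁻¹ = (pair φ u)⁻¹ * ξ := by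
          have h4 : ξ * (ξ⁻¹) ^ 2 = ξ⁻¹ := by field_simp
          rw [h4, mul_inv, inv_inv]
        rw [h3, mul_pow]
        ring
      rw [Finset.sum_congr rfl fun i _ => e3 i, Finset.sum_sub_distrib, e2, sub_self]
    have hw : ∀ i ∈ un m, w i = 0 := by
      intro i hi
      have hfin := hO d φ q (fun i => w i * (ξ ^ (d * i) - 1)) hφ.fin hm0 hmd hq1 hkey i hi
      rcases mul_eq_zero.1 hfin with h3 | h3
      · exact h3
      · exfalso
        have h4 : orderOf ξ = (q : ℕ) := orderOf_eq_prime hξq ha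
        have h5 : (q : ℕ) ∣ d * i := by
          rw [← h4]
          exact orderOf_dvd_of_pow_eq_one (sub_eq_zero.1 h3)
        rcases hq.dvd_mul.1 h5 with h6 | h6
        · exact hnd.not_dvd hq hq2 hqn h6
        · have h7 : (q : ℕ) ∣ i.gcd m := Nat.dvd_gcd h6 hqm
          rw [(MID.mem_un.1 hi).2] at h7
          exact hq.one_lt.ne' (Nat.dvd_one.1 h7)
    refine ⟨hw, fun i hi => ?_⟩
    have h3 := hO d φ' q w' hφt.fin (by rw [hord]; exact hm0) (by rw [hord]; exact hmd) hφ'q (by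
      intro u hu
      rw [hord, ← hcmp u hu]
      exact Finset.sum_eq_zero fun i hi => by rw [hw i hi, zero_mul])
    rw [hord] at h3
    exact h3 i hi
  obtain ⟨F, ε, hF, hFq, hε, hrob⟩ := two_families hEVP d m φ φ' q hφ.fin hφt.fin hm0
    (pow_orderOf_eq_one φ) (by rw [← hord]; exact pow_orderOf_eq_one φ') hinj
  -- the auxiliary primes
  have hch : ∀ u : Un, u ∈ F → ∃ (p : Nat.Primes) (χ : Ch), (p : ℕ) ∈ S ∧ β ε < (p : ℕ) ∧
      (p : ℕ) % (4 * (q : ℕ)) = 1 ∧ p ∉ sup φ ∧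
      (∀ ψ : Ch, sup ψ ⊆ sup φ → ev ψ (p : ℕ) = pair ψ u) ∧ Tame n χ ∧ sup χ = {p} ∧
      orderOf χ = (q : ℕ) := fun u hu =>
    aux_prime hDIR hAUX hS hφ.fin (hFq u hu) hqn _
  choose! p χ hp using hch
  set C : Set Nat.Primes := sup φ ∪ p '' F with hC
  have hCf : C.Finite := hφ.fin.union (hF.image p)
  obtain ⟨N₁, hN₁⟩ := kill_fin (S := S) (n := n) (d := d) (β := β)
    (Φ := {ψ : Ch | Tame n ψ ∧ sup ψ ⊆ C ∧ orderOf ψ < m})
    ((fin_sup hCf).subset fun ψ hψ => hψ.2.1) (fun ψ hψ => hIH ψ hψ.1 hψ.2.2)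
  obtain ⟨N₂, hN₂⟩ := bd_fin hCf
  refine ⟨max N₁ N₂, fun W R hSol => ?_⟩
  have h0 : ∀ ψ : Ch, Tame n ψ → sup ψ ⊆ C → orderOf ψ < m → W ψ = 0 := fun ψ h1 h2 h3 =>
    hN₁ W R (hSol.mono (le_max_left _ _)) ψ ⟨h1, h2, h3⟩
  have h1m : 1 ∈ un m := by
    have h3 : 1 < m := lt_of_lt_of_le hq.one_lt (Nat.le_of_dvd hm0 hqm)
    simp [un, h3]
  have hmain := hrob (fun u i => (-1) ^ d * R (p u) (pair φ u ^ i))
    (fun u i => (-1) ^ d * R (p u) (pair φ' u ^ i))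
    (fun u hu i _ => close_one hSol.lim hε (hp u hu).2.1 (hpn φ u n hφ.fin hn hφ.exp).2 i)
    (fun u hu i _ => close_one hSol.lim hε (hp u hu).2.1 (hpn φ' u n hφt.fin hn hφt.exp).2 i)
    (fun i => W (φ ^ i)) (fun i => W (φ' ^ i)) ?_ 1 h1m
  · rwa [pow_one] at hmain
  intro u hu
  obtain ⟨hpS, hpB, hp4, hpC, hpev, hχ, hχs, hχo⟩ := hp u hu
  have hsub : sup φ ∪ sup (χ u) ⊆ C := by
    rw [hχs]
    exact Set.union_subset Set.subset_union_left (Set.singleton_subset_iff.2 (Or.inr ⟨u, hu, rfl⟩))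
  have hdis : Disjoint (sup φ) (sup (χ u)) := by
    rw [hχs, Set.disjoint_singleton_right]
    exact hpC
  have htst : Tst S (max N₁ N₂) (sup φ ∪ sup (χ u)) :=
    ⟨⟨p u, Or.inr (by rw [hχs]; exact rfl), hpS⟩, fun l hl =>
      (hN₂ l (hsub hl)).trans (le_max_right _ _)⟩
  have e1 := hMID S n d β (max N₁ N₂) W R hn hSol φ (χ u) q hφ hχ hdis htst hq hχo hqm
    (fun ψ h3 h4 h5 => h0 ψ h3 (h4.trans hsub) h5)
  have e2 := hMID S n d β (max N₁ N₂) W R hn hSol φ' (χ u) q hφt hχ (by rw [hsup]; exact hdis)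
    (by rw [hsup]; exact htst) hq hχo (by rw [hord]; exact hqm)
    (fun ψ h3 h4 h5 => h0 ψ h3 (by rw [hsup] at h4; exact h4.trans hsub) (by rw [← hord]; exact h5))
  rw [hord, hsup] at e2
  rw [← hm] at e1
  have h3 : ∑ i ∈ (Finset.range m).filter (fun i => (q : ℕ) ∣ i), ∑ b ∈ Finset.Ico 1 (q : ℕ),
      wl W R (sup φ ∪ sup (χ u)) (φ' ^ i * χ u ^ b) =
      ∑ i ∈ (Finset.range m).filter (fun i => (q : ℕ) ∣ i), ∑ b ∈ Finset.Ico 1 (q : ℕ),
      wl W R (sup φ ∪ sup (χ u)) (φ ^ i * χ u ^ b) := by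
    refine Finset.sum_congr rfl fun i hi => Finset.sum_congr rfl fun b _ => ?_
    rw [Finset.mem_filter] at hi
    rw [hφ', mul_pow, hρdvd i hi.2, mul_one]
  rw [h3] at e2
  have h4 := add_right_cancel (e1.trans e2.symm)
  rw [hχs] at h4
  have h5 : ev φ (p u : ℕ) = pair φ u := hpev φ le_rfl
  have h6 : ev φ' (p u : ℕ) = pair φ' u := hpev φ' hsup.le
  simp only [finprod_mem_singleton, h5, h6] at h4
  have h7 : ∀ (θ : Ch) (x : ℂ), ∑ i ∈ un m, W (θ ^ i) * ((-1) ^ d * R (p u) (x ^ i)) =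
      (-1) ^ d * ∑ i ∈ un m, W (θ ^ i) * R (p u) (x ^ i) := by
    intro θ x
    rw [Finset.mul_sum]
    exact Finset.sum_congr rfl fun i _ => by ring
  show ∑ i ∈ un m, W (φ ^ i) * ((-1) ^ d * R (p u) (pair φ u ^ i)) =
    ∑ i ∈ un m, W (φ' ^ i) * ((-1) ^ d * R (p u) (pair φ' u ^ i))
  rw [h7, h7, h4]

end Pool.DPC
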