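import Pool.Agent.H29.DPU.Stc
import Pool.Agent.H26.DPC.STB

/-!
# DPU: the step for the characters without two components of order `q`
-/

set_option autoImplicit false

namespace Pool.DPC

open Polynomial Complex

/-- two added primes -/
theorem close_two {d : ℕ} {β : ℝ → ℕ} {R : Nat.Primes → ℂ → ℂ} (hL : LimU d β R) {ε : ℝ}
    (hε : 0 < ε) {p p' : Nat.Primes} (hp : β (min 1 (ε / 3)) < (p : ℕ))
    (hp' : β (min 1 (ε / 3)) < (p' : ℕ)) {x : ℂ} (hx : ‖x‖ = 1) (i : ℕ) :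
    ‖R p (x ^ i) * R p' 1 - (x⁻¹) ^ (d * i)‖ < ε := by
  set δ := min 1 (ε / 3) with hδ
  have hδ0 : 0 < δ := lt_min one_pos (by positivity)
  have hδ1 : δ ≤ 1 := min_le_left _ _
  have hδ3 : 3 * δ ≤ ε := by
    have := min_le_right 1 (ε / 3)
    rw [← hδ] at this
    linarith
  have h2 : ((x ^ i)⁻¹) ^ d = (x⁻¹) ^ (d * i) := by
    rw [← inv_pow, ← pow_mul, mul_comm]
  have ha := hL δ hδ0 p hp (x ^ i) (by rw [norm_pow, hx, one_pow])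
  have hb := hL δ hδ0 p' hp' 1 norm_one
  rw [h2] at ha
  rw [inv_one, one_pow, mul_one] at hb
  set a := R p (x ^ i)
  set b := R p' 1
  set y := (x⁻¹) ^ (d * i) with hy
  have hy1 : ‖y‖ = 1 := by
    rw [hy, norm_pow, norm_inv, hx, inv_one, one_pow]
  have h3 : a * b - y = (a - (-1) ^ d * y) * (b - (-1) ^ d) + (a - (-1) ^ d * y) * (-1) ^ d +
        (-1) ^ d * y * (b - (-1) ^ d) := by
    linear_combination y * sgn_sq d
  rw [h3]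
  refine (norm_add₃_le).trans_lt ?_
  rw [norm_mul, norm_mul, norm_mul, norm_mul, sgn_norm, hy1]
  have h4 : ‖a - (-1) ^ d * y‖ * ‖b - (-1) ^ d‖ ≤ δ * 1 :=
    mul_le_mul ha.le (hb.le.trans hδ1) (norm_nonneg _) hδ0.le
  linarith

/-- The terms of the second sum vanish. -/
theorem term_zeroU (hSUP : SUPStmt) {n : ℕ} {W : Ch → ℂ} {R : Nat.Primes → ℂ → ℂ} (hn : 0 < n)
    {D : Set Nat.Primes}
    {φ χ₁ χ₂ : Ch} {q p₁ p₂ : Nat.Primes} (hφ : Tame n φ) (h1 : Tame n χ₁) (h2 : Tame n χ₂)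
    (hd : (q : ℕ) ∣ orderOf φ) (hq2 : φ q ^ 2 = 1)
    (hIH : ∀ ψ : Ch, Tame n ψ → sup ψ ⊆ D → orderOf ψ < orderOf φ → W ψ = 0)
    (hTwo : ∀ ψ : Ch, Tame n ψ → sup ψ ⊆ D → orderOf ψ = orderOf φ → ψ q ^ 2 = 1 →
      Two (q : ℕ) ψ → W ψ = 0)
    (s1 : sup χ₁ = {p₁}) (s2 : sup χ₂ = {p₂}) (o1 : orderOf χ₁ = q) (o2 : orderOf χ₂ = q)
    (hp : p₁ ≠ p₂) (hp1 : p₁ ∉ sup φ) (hp2 : p₂ ∉ sup φ) (hq1 : q ≠ p₁) (hq2' : q ≠ p₂)
    (hD : sup φ ⊆ D) (hD1 : p₁ ∈ D) (hD2 : p₂ ∈ D)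
    {i b : ℕ} (hi : (q : ℕ) ∣ i) (hb1 : 1 ≤ b) (hb2 : b < q) (C : Set Nat.Primes) :
    wl W R C (φ ^ i * (χ₁ * χ₂) ^ b) = 0 := by
  obtain ⟨sm, -, sp, -, -, tmul, tpow, tord, -⟩ := hSUP
  have hψ : Tame n (φ ^ i * (χ₁ * χ₂) ^ b) :=
    tmul _ _ _ (tpow _ _ _ hφ) (tpow _ _ _ (tmul _ _ _ h1 h2))
  have hψD : sup (φ ^ i * (χ₁ * χ₂) ^ b) ⊆ D := by
    refine (sm _ _).trans (Set.union_subset ((sp φ i).trans hD) ((sp _ b).trans ((sm _ _).trans ?_)))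
    rw [s1, s2]
    exact Set.union_subset (Set.singleton_subset_iff.2 hD1) (Set.singleton_subset_iff.2 hD2)
  have hfp1 : φ p₁ = 1 := not_not.1 hp1
  have hfp2 : φ p₂ = 1 := not_not.1 hp2
  have hqp : (q : ℕ).Prime := q.2
  have hmpos : 0 < orderOf φ := (tord _ _ hn hφ).1
  obtain ⟨m', hm'⟩ := hd
  obtain ⟨i', hi'⟩ := hi
  have hχ1 : χ₁ ^ (q : ℕ) = 1 := by rw [← o1]; exact pow_orderOf_eq_one _
  have hχ2 : χ₂ ^ (q : ℕ) = 1 := by rw [← o2]; exact pow_orderOf_eq_one _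
  have hpow : (φ ^ i * (χ₁ * χ₂) ^ b) ^ orderOf φ = 1 := by
    rw [mul_pow, ← pow_mul, mul_comm i, pow_mul, pow_orderOf_eq_one, one_pow, one_mul, ← pow_mul,
      mul_comm b, hm', mul_assoc, pow_mul, mul_pow, hχ1, hχ2, one_mul, one_pow]
  have hdvd : orderOf (φ ^ i * (χ₁ * χ₂) ^ b) ∣ orderOf φ := orderOf_dvd_of_pow_eq_one hpow
  have hW : W (φ ^ i * (χ₁ * χ₂) ^ b) = 0 := by
    rcases lt_or_eq_of_le (Nat.le_of_dvd hmpos hdvd) with h | h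
    · exact hIH _ hψ hψD h
    · refine hTwo _ hψ hψD h ?_ ⟨p₁, p₂, hp, ?_, ?_, ?_, ?_⟩
      · simp only [Pi.mul_apply, Pi.pow_apply]
        rw [STB.off s1 hq1, STB.off s2 hq2', one_mul, one_pow, mul_one, ← pow_mul, mul_comm,
          pow_mul, hq2, one_pow]
      · simp only [Pi.mul_apply, Pi.pow_apply]
        rw [hfp1, one_pow, one_mul, STB.off s2 hp, mul_one]
        exact STB.comp_ne s1 o1 hb1 hb2
      · simp only [Pi.mul_apply, Pi.pow_apply]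
        rw [hfp2, one_pow, one_mul, STB.off s1 hp.symm, one_mul]
        exact STB.comp_ne s2 o2 hb1 hb2
      · simp only [Pi.mul_apply, Pi.pow_apply]
        rw [hfp1, one_pow, one_mul, STB.off s2 hp, mul_one, ← pow_mul, mul_comm, pow_mul]
        have := congrFun hχ1 p₁
        rw [Pi.pow_apply, Pi.one_apply] at this
        rw [this, one_pow]
      · simp only [Pi.mul_apply, Pi.pow_apply]
        rw [hfp2, one_pow, one_mul, STB.off s1 hp.symm, one_mul, ← pow_mul, mul_comm, pow_mul]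
        have := congrFun hχ2 p₂
        rw [Pi.pow_apply, Pi.one_apply] at this
        rw [this, one_pow]
  unfold wl
  rw [hW, zero_mul]

theorem pair_oneU (φ : Ch) : pair φ 1 = 1 := by
  unfold pair
  rw [← finprod_one (α := Nat.Primes) (M := ℂ)]
  refine finprod_congr fun l => ?_
  simp

/-- STBU -/
theorem t_STBU (hMID : MIDUStmt) (hDIR : DIRTStmt) (hAUX : AUXStmt) (hORT : ORTTStmt)
    (hEVP : EVPStmt) (hSUP : SUPStmt) {S : Set ℕ} {n d : ℕ} {β : ℝ → ℕ} (hS : Rich S)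
    (hn : 0 < n) (hnd : Gd n d) (φ : Ch) (q : Nat.Primes) (hφ : Tame n φ)
    (hd : (q : ℕ) ∣ orderOf φ) (hφq : φ q ^ 2 = 1) (hIH : IHU S n d β (orderOf φ))
    (hTwo : ∀ ψ : Ch, Tame n ψ → orderOf ψ = orderOf φ → ψ q ^ 2 = 1 → Two (q : ℕ) ψ →
      Kill S n d β ψ) : Kill S n d β φ := by
  have hSS := hSUP
  obtain ⟨sm, sdis, sp, -, -, tmul, tpow, tord, -⟩ := hSS
  have hqp : (q : ℕ).Prime := q.2
  have hord := tord n φ hn hφ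
  have hqn : (q : ℕ) ∣ n := hd.trans hord.2
  have hm : 1 < orderOf φ := lt_of_lt_of_le hqp.one_lt (Nat.le_of_dvd hord.1 hd)
  obtain ⟨F, ε, hF, hFq, hε, hrob⟩ := one_family hORT hEVP d φ q hφ.fin hord.1
    (hnd.of_dvd hord.2) hφq
  have hch : ∀ u : Un, u ∈ F → ∃ (p : Nat.Primes) (χ : Ch), (p : ℕ) ∈ S ∧
      β (min 1 (ε / 3)) < (p : ℕ) ∧ (p : ℕ) % (4 * (q : ℕ)) = 1 ∧ p ∉ sup φ ∧
      (∀ ψ : Ch, sup ψ ⊆ sup φ → ev ψ (p : ℕ) = pair ψ u) ∧ Tame n χ ∧ sup χ = {p} ∧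
      orderOf χ = (q : ℕ) := fun u hu =>
    aux_prime hDIR hAUX hS hφ.fin (hFq u hu) hqn _
  choose! p₁ χ₁ hp₁ using hch
  have hC1f : (sup φ ∪ p₁ '' F).Finite := hφ.fin.union (hF.image p₁)
  obtain ⟨p₂, χ₂, a2, b2, c2, d2, e2, t2, s2, o2⟩ := aux_prime hDIR hAUX hS hC1f
    (u := (1 : Un)) (q := q) rfl (n := n) hqn (β (min 1 (ε / 3)))
  set C : Set Nat.Primes := sup φ ∪ p₁ '' F ∪ {p₂} with hC
  have hCf : C.Finite := hC1f.union (Set.finite_singleton _)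
  have hφC : sup φ ⊆ C := fun l hl => Or.inl (Or.inl hl)
  obtain ⟨N₁, hN₁⟩ := kill_fin (S := S) (n := n) (d := d) (β := β)
    (Φ := {ψ : Ch | Tame n ψ ∧ sup ψ ⊆ C ∧ orderOf ψ < orderOf φ})
    ((fin_sup hCf).subset fun ψ hψ => hψ.2.1) (fun ψ hψ => hIH ψ hψ.1 hψ.2.2)
  obtain ⟨N₃, hN₃⟩ := kill_fin (S := S) (n := n) (d := d) (β := β)
    (Φ := {ψ : Ch | Tame n ψ ∧ sup ψ ⊆ C ∧ orderOf ψ = orderOf φ ∧ ψ q ^ 2 = 1 ∧ Two (q : ℕ) ψ})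
    ((fin_sup hCf).subset fun ψ hψ => hψ.2.1)
    (fun ψ hψ => hTwo ψ hψ.1 hψ.2.2.1 hψ.2.2.2.1 hψ.2.2.2.2)
  obtain ⟨N₂, hN₂⟩ := bd_fin hCf
  set N := max N₁ (max N₂ N₃) with hN
  refine ⟨N, fun W R hSol => ?_⟩
  have h0 : ∀ ψ : Ch, Tame n ψ → sup ψ ⊆ C → orderOf ψ < orderOf φ → W ψ = 0 :=
    fun ψ h1 h2 h3 => hN₁ W R (hSol.mono (le_max_left _ _)) ψ ⟨h1, h2, h3⟩
  have h00 : ∀ ψ : Ch, Tame n ψ → sup ψ ⊆ C → orderOf ψ = orderOf φ → ψ q ^ 2 = 1 →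
      Two (q : ℕ) ψ → W ψ = 0 := fun ψ h1 h2 h3 h4 h5 =>
    hN₃ W R (hSol.mono ((le_max_right _ _).trans (le_max_right _ _))) ψ ⟨h1, h2, h3, h4, h5⟩
  have h1m : (1 : ℕ) ∈ un (orderOf φ) :=
    Finset.mem_filter.2 ⟨Finset.mem_range.2 hm, Nat.coprime_one_left _⟩
  have hmain := hrob (fun u i => R (p₁ u) (pair φ u ^ i) * R p₂ 1) (fun u hu i _ =>
    close_two hSol.lim hε (hp₁ u hu).2.1 b2 (hEVP.2.2.2.2 φ u n hφ.fin hn hφ.exp).2 i)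
    (fun i => W (φ ^ i)) ?_ 1 h1m
  · rwa [pow_one] at hmain
  intro u hu
  obtain ⟨a1, b1, c1, d1, e1, t1, s1, o1⟩ := hp₁ u hu
  have hu1 : p₁ u ∈ p₁ '' F := ⟨u, hu, rfl⟩
  have hp : p₁ u ≠ p₂ := fun h => d2 (Or.inr (h ▸ hu1))
  have hp1 : p₁ u ∉ sup φ := d1
  have hp2 : p₂ ∉ sup φ := fun h => d2 (Or.inl h)
  have hqp1 : ∀ p : Nat.Primes, (p : ℕ) % (4 * (q : ℕ)) = 1 → q ≠ p := by
    intro p hp h
    subst h
    rw [Nat.mod_eq_of_lt (by linarith [hqp.pos])] at hp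
    exact hqp.one_lt.ne' hp
  have hdis : Disjoint (sup (χ₁ u)) (sup χ₂) := by
    rw [s1, s2]
    exact Set.disjoint_singleton.2 hp
  have hsχ : sup (χ₁ u * χ₂) = {p₁ u, p₂} := by
    rw [sdis _ _ hdis, s1, s2]
    rfl
  have hsub : sup φ ∪ sup (χ₁ u * χ₂) ⊆ C := by
    rw [hsχ]
    refine Set.union_subset hφC ?_
    rintro l (rfl | hl)
    · exact Or.inl (Or.inr hu1)
    · exact Or.inr hl
  have hdis2 : Disjoint (sup φ) (sup (χ₁ u * χ₂)) := by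
    rw [hsχ, Set.disjoint_right]
    rintro l (rfl | rfl)
    · exact hp1
    · exact hp2
  have hχ1 : χ₁ u ^ (q : ℕ) = 1 := by rw [← o1]; exact pow_orderOf_eq_one _
  have hχ2 : χ₂ ^ (q : ℕ) = 1 := by rw [← o2]; exact pow_orderOf_eq_one _
  have : Fact (q : ℕ).Prime := ⟨hqp⟩
  have hoχ : orderOf (χ₁ u * χ₂) = q := by
    refine orderOf_eq_prime (by rw [mul_pow, hχ1, hχ2, one_mul]) fun h => ?_
    have : p₁ u ∈ sup (χ₁ u * χ₂) := by rw [hsχ]; exact Or.inl rfl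
    rw [h] at this
    exact this rfl
  have hmid := hMID S n d β N W R hn hSol φ (χ₁ u * χ₂) q hφ (tmul _ _ _ t1 t2) hdis2
    ⟨⟨p₁ u, Or.inr (by rw [hsχ]; exact Or.inl rfl), a1⟩, fun l hl =>
      (hN₂ l (hsub hl)).trans ((le_max_left _ _).trans (le_max_right _ _))⟩ hqp hoχ hd
    (fun ψ h3 h4 h5 => h0 ψ h3 (h4.trans hsub) h5)
  rw [Finset.sum_eq_zero (s := (Finset.range (orderOf φ)).filter (fun i => (q : ℕ) ∣ i)),
    add_zero] at hmid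
  swap
  · intro i hi
    refine Finset.sum_eq_zero fun b hb => ?_
    exact term_zeroU hSUP hn hφ t1 t2 hd hφq h0 h00 s1 s2 o1 o2 hp hp1 hp2 (hqp1 _ c1)
      (hqp1 _ c2) hφC (Or.inl (Or.inr hu1)) (Or.inr rfl) (Finset.mem_filter.1 hi).2
      (Finset.mem_Ico.1 hb).1 (Finset.mem_Ico.1 hb).2 _
  rw [← hmid]
  refine Finset.sum_congr rfl fun i _ => ?_
  rw [hsχ, STB.finprod_pair hp, e1 φ subset_rfl, e2 φ Set.subset_union_left, pair_oneU, one_pow]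

end Pool.DPC
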