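import Pool.Agent.H29.DPU.Bs
import Pool.Agent.H29.DPU.Sta
import Pool.Agent.H29.DPU.Stb

/-!
# DPU: all values are zero, uniformly
-/

set_option autoImplicit false

namespace Pool.DPC

open Polynomial Complex

theorem t_CORU (hM : MIDUStmt) (hD : DIRTStmt) (hA : AUXStmt) (hO : ORTTStmt) (hE : EVPStmt)
    (hS : SUPStmt) (hQ : QSMStmt) {T : Set ℕ} {n d : ℕ} {β : ℝ → ℕ} (hT : Rich T) (hn1 : 1 < n)
    (hnd : Gd n d) : ∀ φ : Ch, Tame n φ → Kill T n d β φ := by
  have hS' := hS
  obtain ⟨-, -, -, -, ht1, -, -, htord, -⟩ := hS'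
  have hn : 0 < n := by omega
  have hK1 : Kill T n d β 1 := t_BS1U hS hE hD hA hT hn1
  have key : ∀ m : ℕ, ∀ φ : Ch, Tame n φ → orderOf φ = m → Kill T n d β φ := by
    intro m
    induction m using Nat.strong_induction_on with
    | _ m ih =>
      intro φ hφ hm
      have hIH : IHU T n d β (orderOf φ) := fun ψ hψ hlt => ih (orderOf ψ) (hm ▸ hlt) ψ hψ rfl
      have hm0 : 0 < orderOf φ := (htord n φ hn hφ).1
      rcases lt_or_ge 2 (orderOf φ) with h | h
      · obtain ⟨q, hq, hq1, hq2⟩ := hQ φ hφ.fin h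
        by_cases hqq : (q : ℕ) ^ 2 ∣ orderOf φ
        · exact t_STCU hM hD hA hO hE hS hT hn hnd φ q hφ hqq hq1 hIH
        · have hqn2 : (q : ℕ) ≠ 2 := hq2.resolve_left hqq
          refine t_STBU hM hD hA hO hE hS hT hn hnd φ q hφ hq hq1 hIH
            fun ψ hψ hord hψ1 hTw => ?_
          exact t_STAU hM hD hA hO hE hS hT hn hnd ψ q hψ hqn2 (by rw [hord]; exact hq) hψ1
            (by rw [hord]; exact hIH) hTw
      · have hcase : orderOf φ = 1 ∨ orderOf φ = 2 := by omega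
        rcases hcase with h3 | h3
        · have h5 : φ = 1 := orderOf_eq_one_iff.1 h3
          rw [h5]
          exact hK1
        · exact t_BS2U hS hD hA hT hn1 hK1 φ hφ h3
  intro φ hφ
  exact key _ φ hφ rfl

end Pool.DPC
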