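import Pool.Agent.H29.DPT.Gdl
import Pool.Agent.H29.DPT.ORT
import Pool.Agent.H29.DPT.DIR

/-!
# DPU: the uniform and finite form of the trace criterion, definitions
-/

set_option autoImplicit false

namespace Pool.DPC

open Polynomial Complex

/-- the factors of the primes above `β ε` are `ε`-close to their limit -/
def LimU (d : ℕ) (β : ℝ → ℕ) (R : Nat.Primes → ℂ → ℂ) : Prop :=
  ∀ ε : ℝ, 0 < ε → ∀ l : Nat.Primes, β ε < (l : ℕ) → ∀ t : ℂ, ‖t‖ = 1 →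
    ‖R l t - (-1) ^ d * (t⁻¹) ^ d‖ < ε

/-- the test sets of ramified primes: a prime of `S`, all primes at most `N` -/
def Tst (S : Set ℕ) (N : ℕ) (C : Set Nat.Primes) : Prop := Hit S C ∧ ∀ l ∈ C, (l : ℕ) ≤ N

/-- the equations for the test groups with ramified primes at most `N` -/
structure Sol (S : Set ℕ) (n d : ℕ) (β : ℝ → ℕ) (N : ℕ) (W : Ch → ℂ) (R : Nat.Primes → ℂ → ℂ) :
    Prop where
  lim : LimU d β R
  one : ∀ φ : Ch, Tame n φ → Tst S N (sup φ) →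
    ∑ i ∈ Finset.range (orderOf φ), wl W R (sup φ) (φ ^ i) = 0
  two : ∀ φ χ : Ch, Tame n φ → Tame n χ → (∃ q : ℕ, q.Prime ∧ χ ^ q = 1) →
    Disjoint (sup φ) (sup χ) → Tst S N (sup φ ∪ sup χ) →
    ∑ i ∈ Finset.range (orderOf φ), ∑ b ∈ Finset.range (orderOf χ),
      wl W R (sup φ ∪ sup χ) (φ ^ i * χ ^ b) = 0

/-- the value at `φ` of all solutions is zero, for some bound `N` independent of the factors -/
def Kill (S : Set ℕ) (n d : ℕ) (β : ℝ → ℕ) (φ : Ch) : Prop :=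
  ∃ N : ℕ, ∀ (W : Ch → ℂ) (R : Nat.Primes → ℂ → ℂ), Sol S n d β N W R → W φ = 0

/-- the induction hypothesis -/
def IHU (S : Set ℕ) (n d : ℕ) (β : ℝ → ℕ) (m : ℕ) : Prop :=
  ∀ ψ : Ch, Tame n ψ → orderOf ψ < m → Kill S n d β ψ

theorem Tst.mono {S : Set ℕ} {N N' : ℕ} {C : Set Nat.Primes} (h : Tst S N C) (hN : N ≤ N') :
    Tst S N' C := ⟨h.1, fun l hl => (h.2 l hl).trans hN⟩

theorem Sol.mono {S : Set ℕ} {n d : ℕ} {β : ℝ → ℕ} {N N' : ℕ} {W : Ch → ℂ}
    {R : Nat.Primes → ℂ → ℂ} (h : Sol S n d β N' W R) (hN : N ≤ N') : Sol S n d β N W R :=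
  ⟨h.lim, fun φ hφ hT => h.one φ hφ (hT.mono hN), fun φ χ hφ hχ hq hd hT =>
    h.two φ χ hφ hχ hq hd (hT.mono hN)⟩

/-- finitely many families at once -/
theorem kill_fin {S : Set ℕ} {n d : ℕ} {β : ℝ → ℕ} {Φ : Set Ch} (hf : Φ.Finite)
    (h : ∀ φ ∈ Φ, Kill S n d β φ) :
    ∃ N : ℕ, ∀ (W : Ch → ℂ) (R : Nat.Primes → ℂ → ℂ), Sol S n d β N W R → ∀ φ ∈ Φ, W φ = 0 := by
  classical
  choose! N hN using h
  refine ⟨∑ φ ∈ hf.toFinset, N φ, fun W R hW φ hφ => hN φ hφ W R (hW.mono ?_)⟩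
  exact Finset.single_le_sum (f := N) (fun _ _ => Nat.zero_le _) (hf.mem_toFinset.2 hφ)

/-- a bound for a finite set of primes -/
theorem bd_fin {C : Set Nat.Primes} (hC : C.Finite) : ∃ N : ℕ, ∀ l ∈ C, (l : ℕ) ≤ N :=
  ⟨∑ l ∈ hC.toFinset, (l : ℕ), fun l hl =>
    Finset.single_le_sum (f := fun l : Nat.Primes => (l : ℕ)) (fun _ _ => Nat.zero_le _)
      (hC.mem_toFinset.2 hl)⟩

/-- finitely many families with given ramified primes -/
theorem fin_sup {C : Set Nat.Primes} (hC : C.Finite) : {ψ : Ch | sup ψ ⊆ C}.Finite := by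
  classical
  have hne : ∀ l : Nat.Primes, NeZero (l : ℕ) := fun l => ⟨l.2.ne_zero⟩
  have hfin : ∀ l : Nat.Primes, Finite (DirichletCharacter ℂ (l : ℕ)) := fun l => by
    have := hne l
    infer_instance
  have hCf : Finite C := hC
  have : Finite ((l : C) → DirichletCharacter ℂ ((l : Nat.Primes) : ℕ)) := by
    have : ∀ l : C, Finite (DirichletCharacter ℂ ((l : Nat.Primes) : ℕ)) := fun l => hfin l
    infer_instance
  refine Set.Finite.of_injOn (f := fun ψ : Ch => fun l : C => ψ l) (t := Set.univ)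
    (fun _ _ => Set.mem_univ _) ?_ Set.finite_univ
  intro ψ hψ ψ' hψ' h
  funext l
  by_cases hl : l ∈ C
  · exact congrFun h ⟨l, hl⟩
  · have h1 : ψ l = 1 := by
      by_contra h2
      exact hl (hψ h2)
    have h2 : ψ' l = 1 := by
      by_contra h2
      exact hl (hψ' h2)
    rw [h1, h2]

end Pool.DPC
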