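import Pool.Agent.H29.DPU.Rob
import Pool.Agent.H29.DPC.STA

/-!
# DPU: finitely many auxiliary classes are enough
-/

set_option autoImplicit false

namespace Pool.DPC

open Polynomial Complex

/-- families of units -/
abbrev Un : Type := (l : Nat.Primes) → (ZMod (l : ℕ))ˣ

namespace FAM

theorem range_fin {ι J : Type*} (x : J → ℂ) (m : ℕ) (hm : 0 < m)
    (hx : ∀ j, x j ^ m = 1) (a : ℂ → ι → ℂ) : (Set.range fun j => a (x j)).Finite := by
  have h1 : {z : ℂ | z ^ m = 1}.Finite := by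
    have : {z : ℂ | z ^ m = 1} ⊆ ((nthRoots m (1 : ℂ)).toFinset : Set ℂ) := by
      intro z hz
      rw [Finset.mem_coe, Multiset.mem_toFinset, mem_nthRoots hm]
      exact hz
    exact (Finset.finite_toSet _).subset this
  refine (h1.image a).subset ?_
  rintro _ ⟨j, rfl⟩
  exact ⟨x j, hx j, rfl⟩

theorem range_fin2 {ι J : Type*} (x y : J → ℂ) (m : ℕ) (hm : 0 < m)
    (hx : ∀ j, x j ^ m = 1) (hy : ∀ j, y j ^ m = 1) (a : ℂ → ℂ → ι → ℂ) :
    (Set.range fun j => a (x j) (y j)).Finite := by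
  have h1 : {z : ℂ | z ^ m = 1}.Finite := by
    have : {z : ℂ | z ^ m = 1} ⊆ ((nthRoots m (1 : ℂ)).toFinset : Set ℂ) := by
      intro z hz
      rw [Finset.mem_coe, Multiset.mem_toFinset, mem_nthRoots hm]
      exact hz
    exact (Finset.finite_toSet _).subset this
  refine ((h1.prod h1).image fun z : ℂ × ℂ => a z.1 z.2).subset ?_
  rintro _ ⟨j, rfl⟩
  exact ⟨(x j, y j), ⟨hx j, hy j⟩, rfl⟩

end FAM

/-- One family: finitely many classes of auxiliary primes are enough. -/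
theorem one_family (hO : ORTTStmt) (hE : EVPStmt) (d : ℕ) (φ : Ch) (q : Nat.Primes)
    (hf : (sup φ).Finite) (hm : 0 < orderOf φ) (hd : Gd (orderOf φ) d) (hq : φ q ^ 2 = 1) :
    ∃ (F : Set Un) (ε : ℝ), F.Finite ∧ (∀ u ∈ F, u q = 1) ∧ 0 < ε ∧ ∀ r : Un → ℕ → ℂ,
      (∀ u ∈ F, ∀ i ∈ un (orderOf φ), ‖r u i - ((pair φ u)⁻¹) ^ (d * i)‖ < ε) →
      ∀ w : ℕ → ℂ, (∀ u ∈ F, ∑ i ∈ un (orderOf φ), w i * r u i = 0) →
      ∀ i ∈ un (orderOf φ), w i = 0 := by
  classical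
  set m := orderOf φ with hmdef
  have hx : ∀ u : Un, pair φ u ^ m = 1 := fun u =>
    (hE.2.2.2.2 φ u m hf hm (pow_orderOf_eq_one φ)).1
  obtain ⟨F, ε, hF, hε, hrob⟩ := robust (ι := {i // i ∈ un m}) (J := {u : Un // u q = 1})
    (fun u i => ((pair φ u)⁻¹) ^ (d * (i : ℕ)))
    (FAM.range_fin (fun u : {u : Un // u q = 1} => pair φ u) m hm (fun u => hx u)
      (fun z (i : {i // i ∈ un m}) => (z⁻¹) ^ (d * (i : ℕ)))) (by
      intro w hw
      have h1 := hO d φ q (fun i => if h : i ∈ un m then w ⟨i, h⟩ else 0) hf hm hd hq (by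
        intro u hu
        rw [← hw ⟨u, hu⟩, ← Finset.sum_coe_sort]
        refine Finset.sum_congr rfl fun i _ => ?_
        rw [dif_pos i.2])
      funext i
      have := h1 i i.2
      rw [dif_pos i.2] at this
      exact this)
  refine ⟨Subtype.val '' F, ε, hF.image _, ?_, hε, fun r hr w hw i hi => ?_⟩
  · rintro _ ⟨u, -, rfl⟩
    exact u.2
  · have h1 := hrob (fun u i => r u i) (fun u hu i => hr u ⟨u, hu, rfl⟩ i i.2)
      (fun i => w i) (fun u hu => by
        have h2 := hw u ⟨u, hu, rfl⟩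
        rw [← Finset.sum_coe_sort] at h2
        exact h2)
    exact congrFun h1 ⟨i, hi⟩

/-- Two families. -/
theorem two_families (hE : EVPStmt) (d m : ℕ) (φ φ' : Ch) (q : Nat.Primes)
    (hf : (sup φ).Finite) (hf' : (sup φ').Finite) (hm : 0 < m) (h1 : φ ^ m = 1) (h2 : φ' ^ m = 1)
    (hinj : ∀ w w' : ℕ → ℂ, (∀ u : Un, u q = 1 →
      ∑ i ∈ un m, w i * ((pair φ u)⁻¹) ^ (d * i) = ∑ i ∈ un m, w' i * ((pair φ' u)⁻¹) ^ (d * i)) →
      (∀ i ∈ un m, w i = 0) ∧ ∀ i ∈ un m, w' i = 0) :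
    ∃ (F : Set Un) (ε : ℝ), F.Finite ∧ (∀ u ∈ F, u q = 1) ∧ 0 < ε ∧ ∀ r r' : Un → ℕ → ℂ,
      (∀ u ∈ F, ∀ i ∈ un m, ‖r u i - ((pair φ u)⁻¹) ^ (d * i)‖ < ε) →
      (∀ u ∈ F, ∀ i ∈ un m, ‖r' u i - ((pair φ' u)⁻¹) ^ (d * i)‖ < ε) →
      ∀ w w' : ℕ → ℂ, (∀ u ∈ F, ∑ i ∈ un m, w i * r u i = ∑ i ∈ un m, w' i * r' u i) →
      ∀ i ∈ un m, w i = 0 := by
  classical
  have hx : ∀ u : Un, pair φ u ^ m = 1 := fun u => (hE.2.2.2.2 φ u m hf hm h1).1
  have hx' : ∀ u : Un, pair φ' u ^ m = 1 := fun u => (hE.2.2.2.2 φ' u m hf' hm h2).1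
  obtain ⟨F, ε, hF, hε, hrob⟩ := robust (ι := {i // i ∈ un m} ⊕ {i // i ∈ un m})
    (J := {u : Un // u q = 1})
    (fun u => Sum.elim (fun i => ((pair φ u)⁻¹) ^ (d * (i : ℕ)))
      fun i => -((pair φ' u)⁻¹) ^ (d * (i : ℕ)))
    (FAM.range_fin2 (fun u : {u : Un // u q = 1} => pair φ u)
      (fun u : {u : Un // u q = 1} => pair φ' u) m hm (fun u => hx u) (fun u => hx' u)
      (fun z z' => Sum.elim (fun i : {i // i ∈ un m} => (z⁻¹) ^ (d * (i : ℕ)))
      fun i : {i // i ∈ un m} => -(z'⁻¹) ^ (d * (i : ℕ)))) (by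
      intro w hw
      have h1 := hinj (fun i => if h : i ∈ un m then w (Sum.inl ⟨i, h⟩) else 0)
        (fun i => if h : i ∈ un m then w (Sum.inr ⟨i, h⟩) else 0) (by
        intro u hu
        have h3 := hw ⟨u, hu⟩
        rw [Fintype.sum_sum_type] at h3
        simp only [Sum.elim_inl, Sum.elim_inr, mul_neg, Finset.sum_neg_distrib] at h3
        rw [add_neg_eq_zero] at h3
        rw [← Finset.sum_coe_sort, ← Finset.sum_coe_sort (un m) (fun i =>
          (if h : i ∈ un m then w (Sum.inr ⟨i, h⟩) else 0) * (pair φ' u)⁻¹ ^ (d * i))]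
        have e1 : ∀ i : {i // i ∈ un m}, (if h : (i : ℕ) ∈ un m then w (Sum.inl ⟨i, h⟩) else 0) =
          w (Sum.inl i) := fun i => dif_pos i.2
        have e2 : ∀ i : {i // i ∈ un m}, (if h : (i : ℕ) ∈ un m then w (Sum.inr ⟨i, h⟩) else 0) =
          w (Sum.inr i) := fun i => dif_pos i.2
        simp only [e1, e2]
        exact h3)
      funext i
      rcases i with i | i
      · have := h1.1 i i.2
        rw [dif_pos i.2] at this
        exact this
      · have := h1.2 i i.2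
        rw [dif_pos i.2] at this
        exact this)
  refine ⟨Subtype.val '' F, ε, hF.image _, ?_, hε, fun r r' hr hr' w w' hw i hi => ?_⟩
  · rintro _ ⟨u, -, rfl⟩
    exact u.2
  · have h3 := hrob (fun u => Sum.elim (fun i => r u i) fun i => -r' u i) (by
      intro u hu i
      rcases i with i | i
      · exact hr u ⟨u, hu, rfl⟩ i i.2
      · simp only [Sum.elim_inr]
        rw [← norm_neg]
        have := hr' u ⟨u, hu, rfl⟩ i i.2
        rw [show -(-r' u i - -(pair φ' u)⁻¹ ^ (d * (i : ℕ))) =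
          r' u i - (pair φ' u)⁻¹ ^ (d * (i : ℕ)) by ring]
        exact this)
      (Sum.elim (fun i => w i) fun i => w' i) (fun u hu => by
        rw [Fintype.sum_sum_type]
        simp only [Sum.elim_inl, Sum.elim_inr, mul_neg, Finset.sum_neg_distrib]
        rw [add_neg_eq_zero]
        have h4 := hw u ⟨u, hu, rfl⟩
        rw [← Finset.sum_coe_sort, ← Finset.sum_coe_sort (un m) (fun i => w' i * r' u i)] at h4
        exact h4)
    have := congrFun h3 (Sum.inl ⟨i, hi⟩)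
    exact this

end Pool.DPC
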