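import Pool.Agent.H29.DPU.Defs
import Pool.Agent.H26.DPC.LIM

/-!
# DPU: the Weil bound gives a uniform limit
-/

set_option autoImplicit false

namespace Pool.DPC.LIM

open Polynomial Complex

theorem lim0 (d : ℕ) (ε : ℝ) (hε : 0 < ε) : ∃ B : ℕ, ∀ P : ℕ → ℚ[X], Weil d P →
    ∀ l : Nat.Primes, B < (l : ℕ) → ∀ t : ℂ, ‖t‖ = 1 →
    ‖Rf d P l t - (-1) ^ d * (t⁻¹) ^ d‖ < ε := by
  have hc : ContinuousAt (fun δ : ℝ => (1 + δ) ^ (2 * d) - 1) 0 := by fun_prop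
  obtain ⟨δ₀, hδ₀, h1⟩ := Metric.continuousAt_iff.1 hc ε hε
  obtain ⟨B, hB⟩ := exists_nat_gt (1 / δ₀ ^ 2)
  refine ⟨B, fun P hP l hl t ht => ?_⟩
  have hlp : (l : ℕ).Prime := l.2
  obtain ⟨h2, h3, h4⟩ := hP l hlp
  have hl0 : (0 : ℝ) < (l : ℕ) := by exact_mod_cast hlp.pos
  set δ : ℝ := 1 / Real.sqrt (l : ℕ) with hδ
  have hsq : 0 < Real.sqrt (l : ℕ) := Real.sqrt_pos.2 hl0
  have hδ0 : 0 ≤ δ := by positivity
  have hδ1 : δ < δ₀ := by
    rw [hδ, div_lt_iff₀ hsq]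
    have h5 : 1 / δ₀ ^ 2 < (l : ℕ) := hB.trans (by exact_mod_cast hl)
    rw [div_lt_iff₀ (by positivity)] at h5
    have h6 : 1 < (δ₀ * Real.sqrt (l : ℕ)) ^ 2 := by
      rw [mul_pow, Real.sq_sqrt hl0.le]
      linarith
    by_contra h7
    push Not at h7
    have h8 : (δ₀ * Real.sqrt (l : ℕ)) ^ 2 ≤ 1 := pow_le_one₀ (by positivity) h7
    linarith
  set p : ℂ[X] := (P l).map (algebraMap ℚ ℂ) with hp
  have hp0 : p.coeff 0 = 1 := by rw [hp, coeff_map, h2, map_one]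
  have hev : ∀ x : ℂ, aeval x (P l) = p.eval x := fun x => by
    rw [hp, eval_map, aeval_def]
  set x : ℂ := t * (((l : ℕ) : ℂ))⁻¹ with hx
  have hxn : ‖x‖ = 1 / (l : ℕ) := by
    rw [hx, norm_mul, ht, one_mul, norm_inv, Complex.norm_natCast, one_div]
  obtain ⟨e1, e2⟩ := eval_eq hp0 x
  have e3 := (prod_bound hδ0 (p.roots.map fun r => x / r) (by
    intro z hz
    obtain ⟨r, hr, rfl⟩ := Multiset.mem_map.1 hz
    have h5 : aeval r (P l) = 0 := by
      rw [hev]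
      exact (mem_roots'.1 hr).2
    have h6 := h4 r h5
    have hr0 : 0 < ‖r‖ := norm_pos_iff.2 (e2 r hr)
    rw [norm_div, hxn, div_le_iff₀ hr0, hδ]
    have h7 : (1 : ℝ) / (l : ℕ) = 1 / Real.sqrt (l : ℕ) * (1 / Real.sqrt (l : ℕ)) := by
      rw [div_mul_div_comm, one_mul, Real.mul_self_sqrt hl0.le]
    rw [h7]
    refine mul_le_mul_of_nonneg_left ?_ (by positivity)
    rw [div_le_iff₀ hsq]
    linarith)).1
  rw [Multiset.map_map, Multiset.card_map] at e3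
  have e4 : ‖p.eval x - 1‖ ≤ (1 + δ) ^ (2 * d) - 1 := by
    rw [e1]
    refine e3.trans ?_
    have h5 : Multiset.card p.roots ≤ 2 * d :=
      (p.card_roots').trans ((natDegree_map_le).trans h3)
    have h6 : (1 + δ) ^ Multiset.card p.roots ≤ (1 + δ) ^ (2 * d) :=
      pow_le_pow_right₀ (by linarith) h5
    linarith
  have e5 : (1 + δ) ^ (2 * d) - 1 < ε := by
    have h5 := h1 (x := δ) (by rw [Real.dist_eq, sub_zero, abs_of_nonneg hδ0]; exact hδ1)
    rw [Real.dist_eq] at h5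
    have h6 := (abs_lt.1 h5).2
    simp only [add_zero, one_pow] at h6
    linarith
  have e6 : Rf d P l t - (-1) ^ d * (t⁻¹) ^ d = (-1) ^ d * (t⁻¹) ^ d * (p.eval x - 1) := by
    unfold Rf
    rw [hev]
    ring
  rw [e6, norm_mul, norm_mul, norm_pow, norm_neg, norm_one, one_pow, one_mul, norm_pow, norm_inv,
    ht, inv_one, one_pow, one_mul]
  exact e4.trans_lt e5

/-- The Weil bound gives a limit which is uniform in the local factors. -/
theorem _root_.Pool.DPC.t_LIMU (d : ℕ) :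
    ∃ β : ℝ → ℕ, ∀ P : ℕ → ℚ[X], Weil d P → LimU d β (Rf d P) := by
  classical
  refine ⟨fun ε => if h : 0 < ε then (lim0 d ε h).choose else 0, fun P hP ε hε l hl t ht => ?_⟩
  beta_reduce at hl
  rw [dif_pos hε] at hl
  exact (lim0 d ε hε).choose_spec P hP l hl t ht

end Pool.DPC.LIM
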