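import Pool.Agent.H29.DPU.Defs
import Pool.Agent.H52.DPC.SEM
import Pool.Agent.H79.DPC.IDX

/-!
# DPU: semilinear maps
-/

set_option autoImplicit false

namespace Pool.DPC

open Polynomial Complex

open H79IDX in
/-- the sum over a cyclic group -/
theorem idx_one (hS : SUPStmt) {n : ℕ} (hn : 0 < n) (φ : Ch) (hφ : Tame n φ) (f : Ch → ℂ) :
    ∑ᶠ ψ ∈ (Subgroup.closure {φ, (1 : Ch)} : Set Ch), f ψ =
      ∑ i ∈ Finset.range (orderOf φ), f (φ ^ i) := by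
  classical
  obtain ⟨-, -, -, -, hT1, -, -, hord, hinj⟩ := hS
  have hφ0 := (hord n φ hn hφ).1
  have hset : ((Subgroup.closure {φ, (1 : Ch)} : Subgroup Ch) : Set Ch) =
      (((Finset.range (orderOf φ)).image (fun i => φ ^ i) : Finset Ch) : Set Ch) := by
    ext z
    simp only [SetLike.mem_coe, Finset.coe_image, Finset.coe_range, Set.mem_image, Set.mem_Iio]
    rw [Subgroup.mem_closure_pair]
    constructor
    · rintro ⟨a, b, rfl⟩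
      obtain ⟨i, hi, hi'⟩ := exists_nat_pow φ hφ0 a
      exact ⟨i, hi, by rw [hi', one_zpow, mul_one]⟩
    · rintro ⟨i, hi, rfl⟩
      exact ⟨i, 0, by simp⟩
  rw [hset, finsum_mem_coe_finset, Finset.sum_image]
  intro i hi j hj hij
  simp only [Finset.coe_range, Set.mem_Iio] at hi hj
  exact pow_injOn_Iio_orderOf (by simpa using hi) (by simpa using hj) hij

open H79IDX in
/-- the sum over a product of two cyclic groups -/
theorem idx_two (hS : SUPStmt) {n : ℕ} (hn : 0 < n) (φ χ : Ch) (hφ : Tame n φ) (hχ : Tame n χ)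
    (hd : Disjoint (sup φ) (sup χ)) (f : Ch → ℂ) :
    ∑ᶠ ψ ∈ (Subgroup.closure {φ, χ} : Set Ch), f ψ =
      ∑ i ∈ Finset.range (orderOf φ), ∑ b ∈ Finset.range (orderOf χ), f (φ ^ i * χ ^ b) := by
  classical
  obtain ⟨-, -, -, -, hT1, -, -, hord, hinj⟩ := hS
  have hφ0 := (hord n φ hn hφ).1
  have hχ0 := (hord n χ hn hχ).1
  have hset : ((Subgroup.closure {φ, χ} : Subgroup Ch) : Set Ch) =
      ((((Finset.range (orderOf φ)) ×ˢ (Finset.range (orderOf χ))).image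
        (fun p : ℕ × ℕ => φ ^ p.1 * χ ^ p.2) : Finset Ch) : Set Ch) := by
    ext z
    simp only [SetLike.mem_coe, Finset.coe_image, Finset.coe_product, Finset.coe_range,
      Set.mem_image, Set.mem_prod, Set.mem_Iio, Prod.exists]
    rw [Subgroup.mem_closure_pair]
    constructor
    · rintro ⟨a, b, rfl⟩
      obtain ⟨i, hi, hi'⟩ := exists_nat_pow φ hφ0 a
      obtain ⟨j, hj, hj'⟩ := exists_nat_pow χ hχ0 b
      exact ⟨i, j, ⟨hi, hj⟩, by rw [hi', hj']⟩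
    · rintro ⟨i, j, ⟨hi, hj⟩, rfl⟩
      exact ⟨i, j, by simp⟩
  rw [hset, finsum_mem_coe_finset, Finset.sum_image, Finset.sum_product]
  rintro ⟨i, b⟩ hi ⟨i', b'⟩ hj hij
  simp only [Finset.coe_product, Finset.coe_range, Set.mem_prod, Set.mem_Iio] at hi hj
  obtain ⟨h1, h2⟩ := hinj φ χ hd i b i' b' hij
  have e1 := pow_injOn_Iio_orderOf (by simpa using hi.1) (by simpa using hj.1) h1
  have e2 := pow_injOn_Iio_orderOf (by simpa using hi.2) (by simpa using hj.2) h2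
  rw [e1, e2]

/-- SEMU -/
theorem t_SEMU (hGRF : GRFStmt) (hSUP : SUPStmt) {S : Set ℕ} {n d : ℕ} {β : ℝ → ℕ}
    (hn1 : 1 < n) (hK : ∀ φ : Ch, Tame n φ → Kill S n d β φ) {C : Set Nat.Primes}
    (hC : C.Finite) :
    ∃ N : ℕ, ∀ (k : IntermediateField ℚ ℂ) (P : ℕ → ℚ[X]) (V : Ch → ℂ), LimU d β (Rf d P) →
    (∀ φ χ : Ch, Tame n φ → Tame n χ → (∃ q : ℕ, q.Prime ∧ χ ^ q = 1) →
      Tst S N (sup φ ∪ sup χ) → ∑ᶠ ψ ∈ (Subgroup.closure {φ, χ} : Set Ch),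
      wl V (Rf d P) (sup φ ∪ sup χ) ψ ∈ k) →
    ∀ (g : cyc k n ≃ₐ[k] cyc k n) (s : ℕ), Pow g s → ∀ (π : ℂ →ₗ[cyc k n] cyc k n) (φ : Ch),
    Tame n φ → sup φ ⊆ C →
    ((g (π (V φ)) : cyc k n) : ℂ) = ((g (π 1) : cyc k n) : ℂ) * V (φ ^ s) := by
  obtain ⟨N, hN⟩ := kill_fin (S := S) (n := n) (d := d) (β := β)
    (Φ := {ψ : Ch | Tame n ψ ∧ sup ψ ⊆ C}) ((fin_sup hC).subset fun ψ hψ => hψ.2)
    (fun ψ hψ => hK ψ hψ.1)
  refine ⟨N, ?_⟩
  intro k P V hLim hTr g s hPow π φ hφ hφC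
  have hn : 0 < n := by omega
  have hSUP' := hSUP
  obtain ⟨_, _, hsp, _, ht1, hmul, hpow, _, _⟩ := hSUP'
  -- the inverse exponent
  set s1 : ℕ := s ^ (n.totient - 1) with hs1
  have hss : s * s1 ≡ 1 [MOD n] := by
    have h1 : s * s1 = s ^ n.totient := by
      rw [hs1, ← pow_succ', Nat.sub_add_cancel (Nat.totient_pos.2 hn)]
    rw [h1]
    exact Nat.ModEq.pow_totient hPow.1
  have hinv : ∀ ψ : Ch, ψ ^ n = 1 → (ψ ^ s) ^ s1 = ψ := by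
    intro ψ hψ
    rw [← pow_mul, pow_eq_pow_of_modEq hss hψ, pow_one]
  have hinv' : ∀ ψ : Ch, ψ ^ n = 1 → (ψ ^ s1) ^ s = ψ := by
    intro ψ hψ
    rw [← pow_mul, mul_comm, pow_eq_pow_of_modEq hss hψ, pow_one]
  set Λ := H52.lam g π with hΛ
  set W : Ch → ℂ := fun ψ => Λ (V (ψ ^ s1)) - Λ 1 * V ψ with hW
  have hEq : ∀ α γ : Ch, Tame n α → Tame n γ → (∃ q : ℕ, q.Prime ∧ γ ^ q = 1) →
      Tst S N (sup α ∪ sup γ) →
      ∑ᶠ ψ ∈ (Subgroup.closure {α, γ} : Set Ch), wl W (Rf d P) (sup α ∪ sup γ) ψ = 0 := by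
    intro α γ hα hγ hq hit
    set H : Set Ch := (Subgroup.closure {α, γ} : Set Ch) with hH
    set C : Set Nat.Primes := sup α ∪ sup γ with hC
    have hCf : C.Finite := H52.tame_fin_union hα hγ
    have hHf : H.Finite := H52.fin_cl hn hα.exp hγ.exp
    have hHt : ∀ ψ ∈ H, Tame n ψ := by
      intro ψ hψ
      obtain ⟨i, j, _, _, rfl⟩ := H52.mem_cl hn hα.exp hγ.exp hψ
      exact hmul n _ _ (hpow n i α hα) (hpow n j γ hγ)
    have hT := hTr α γ hα hγ hq hit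
    rw [← hH, ← hC] at hT
    set T := ∑ᶠ ψ ∈ H, wl V (Rf d P) C ψ with hTdef
    have h1 : Λ T = Λ 1 * T := H52.lam_k g π hT
    have h2 : Λ T = ∑ᶠ ψ ∈ H, Λ (wl V (Rf d P) C ψ) := by
      rw [hTdef]
      exact AddMonoidHom.map_finsum_mem _ Λ hHf
    have h3 : ∑ᶠ ψ ∈ H, Λ (wl V (Rf d P) C ψ) = ∑ᶠ ψ ∈ H, (Λ (V (ψ ^ s1)) *
        ∏ᶠ l ∈ C \ sup ψ, Rf d P l (ev ψ (l : ℕ))) := by
      refine finsum_mem_eq_of_bijOn (fun ψ => ψ ^ s) ⟨?_, ?_, ?_⟩ ?_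
      · intro ψ hψ
        exact Subgroup.pow_mem _ hψ s
      · intro ψ hψ ψ' hψ' he
        have he' : ψ ^ s = ψ' ^ s := he
        rw [← hinv ψ (hHt ψ hψ).exp, ← hinv ψ' (hHt ψ' hψ').exp, he']
      · intro ψ hψ
        exact ⟨ψ ^ s1, Subgroup.pow_mem _ hψ s1, hinv' ψ (hHt ψ hψ).exp⟩
      · intro ψ hψ
        obtain ⟨r, hr, hr'⟩ := hGRF k n d P C hn hCf g s hPow ψ (hHt ψ hψ)
        show Λ (V ψ * ∏ᶠ l ∈ C \ sup ψ, Rf d P l (ev ψ (l : ℕ))) = Λ (V ((ψ ^ s) ^ s1)) *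
          ∏ᶠ l ∈ C \ sup (ψ ^ s), Rf d P l (ev (ψ ^ s) (l : ℕ))
        rw [hinv ψ (hHt ψ hψ).exp, ← hr, ← hr']
        exact H52.lam_mul g π _ r
    have h4 : ∑ᶠ ψ ∈ H, wl W (Rf d P) C ψ = ∑ᶠ ψ ∈ H, ((Λ (V (ψ ^ s1)) *
        ∏ᶠ l ∈ C \ sup ψ, Rf d P l (ev ψ (l : ℕ))) - Λ 1 * wl V (Rf d P) C ψ) := by
      refine finsum_mem_congr rfl fun ψ _ => ?_
      simp only [wl, hW]
      ring
    rw [h4, finsum_mem_sub_distrib _ _ hHf, ← h3, ← h2, ← mul_finsum_mem, ← hTdef, h1,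
      sub_self]
  have hsup1 : sup (1 : Ch) = ∅ := by
    ext l
    simp [sup]
  have hSol : Sol S n d β N W (Rf d P) := by
    refine ⟨hLim, fun α hα hT => ?_, fun α γ hα hγ hq hd hT => ?_⟩
    · have h1 := hEq α 1 hα (ht1 n) ⟨2, Nat.prime_two, one_pow 2⟩
        (by rw [hsup1, Set.union_empty]; exact hT)
      rw [hsup1, Set.union_empty, idx_one hSUP hn α hα] at h1
      exact h1
    · have h1 := hEq α γ hα hγ hq hT
      rw [idx_two hSUP hn α γ hα hγ hd] at h1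
      exact h1
  have h5 := hN W (Rf d P) hSol (φ ^ s) ⟨hpow n s φ hφ, (hsp φ s).trans hφC⟩
  simp only [hW] at h5
  rw [hinv φ hφ.exp, sub_eq_zero] at h5
  exact h5

end Pool.DPC
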