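import Pool.Agent.H29.DPC.All
import Pool.Agent.H29.DPT.DIR
import Pool.Agent.H29.DPT.ORT
import Pool.Agent.H29.DPU.Brg
import Pool.Agent.H29.DPU.Cor
import Pool.Agent.H29.DPU.Lim
import Pool.Agent.H29.DPU.Sem

/-!
# DPU: the theorem
-/

set_option autoImplicit false

namespace Pool.DPC

open Polynomial Complex

theorem kill_all {S : Set ℕ} {n d : ℕ} {β : ℝ → ℕ} (hS : Rich S) (hn : 1 < n) (hnd : Gd n d) :
    ∀ φ : Ch, Tame n φ → Kill S n d β φ :=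
  t_CORU (t_MIDU t_SUP t_evp) t_DIRT t_aux (t_ORTT t_evp) t_evp t_SUP t_QSM hS hn hnd

/-- The uniform trace criterion. -/
theorem dpu_all (S : Set ℕ) (hS : Rich S) (n d : ℕ) (hn1 : 1 < n) (hnd : Gd n d) (f₀ : ℕ) :
    ∃ N : ℕ, ∀ (Om : ℝ) (P : ℕ → ℚ[X]) (U : Set ℂ)
      (L : (f : ℕ) → DirichletCharacter ℂ f → ℂ → ℂ), Weil d P → Region U → HL n P U L →
      ∀ k : IntermediateField ℚ ℂ,
      (∀ (f : ℕ) (Y : Subgroup (DirichletCharacter ℂ f)), f ≤ N → FieldData n f Y →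
        (∃ a b, Y = Subgroup.closure {a, b} ∧ ∃ q : ℕ, q.Prime ∧ b ^ q = 1) →
        (∃ l ∈ S, l.Prime ∧ l ∣ f) →
        ∑ᶠ psi ∈ (Y : Set (DirichletCharacter ℂ f)), normValue d Om (L f) psi ∈ k) →
      ∀ Y : Subgroup (DirichletCharacter ℂ f₀), FieldData n f₀ Y → ∀ psi ∈ Y,
        Equivariant k (normValue d Om (L f₀)) psi := by
  have hn : 0 < n := by omega
  have hVCR : VCRStmt := t_vcr (t_val t_td1 t_td3 t_GSM t_lfp)
  obtain ⟨β, hβ⟩ := t_LIMU d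
  by_cases hsqf : Squarefree f₀
  swap
  · exact ⟨0, fun Om P U L _ _ _ k _ Y hY => absurd hY.sqf hsqf⟩
  obtain ⟨C, rfl⟩ := t_td3.2.2.1 f₀ hsqf
  obtain ⟨N, hN⟩ := t_SEMU (t_grf t_evp t_SUP) t_SUP hn1 (kill_all (β := β) hS hn1 hnd)
    (C := (C : Set Nat.Primes)) C.finite_toSet
  refine ⟨N.factorial, fun Om P U L hW hU hHL k hT Y hY psi hpsi => ?_⟩
  obtain ⟨hmul, hone, -, heven⟩ := t_td1
  obtain ⟨hinj, hsurj⟩ := t_td2
  obtain ⟨-, -, hspow, -, -, -, htpow, -, -⟩ := t_SUP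
  have hpow : ∀ (C : Finset Nat.Primes) (φ : Ch) (i : ℕ), toDC C (φ ^ i) = toDC C φ ^ i := by
    intro C φ i
    induction i with
    | zero => rw [pow_zero, pow_zero, hone]
    | succ i ih => rw [pow_succ, pow_succ, hmul, ih]
  obtain ⟨φ, hφC, rfl⟩ := hsurj C psi
  have hφ : Tame n φ := by
    refine ⟨C.finite_toSet.subset hφC, ?_, ?_⟩
    · apply hinj C (φ ^ n) 1 ((hspow φ n).trans hφC)
      · intro l hl
        exact absurd rfl hl
      · rw [hpow, hY.exp _ hpsi, hone]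
    · exact (heven C φ hφC).1 (hY.even _ hpsi)
  refine t_FLD t_gal k n (cn C) _ _ hn (hY.exp _ hpsi) fun g s hg π => ?_
  have h1 := hN k P (V0 d Om L) (hβ P hW)
    (t_BRGU t_td1 t_td2 t_td3 hVCR t_SUP S N k n d Om P U L hn hW hU hHL hT) g s hg π φ hφ hφC
  have h2 := t_LVL (t_grf t_evp t_SUP) k n d P (V0 d Om L) hn g s hg π φ hφ h1
    (C : Set Nat.Primes) C.finite_toSet
  rw [← hVCR n d Om P U L hW hU hHL C φ hφ hφC,
    ← hVCR n d Om P U L hW hU hHL C (φ ^ s) (htpow n s φ hφ) ((hspow φ s).trans hφC)] at h2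
  unfold Vc at h2
  rw [hpow] at h2
  exact h2

end Pool.DPC
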