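import Pool.Agent.H29.DPU.Defs
import Pool.Agent.H29.DPC.MID

/-!
# DPU: the main identity
-/

set_option autoImplicit false

namespace Pool.DPC

open Polynomial Complex

/-- MIDU -/
def MIDUStmt : Prop :=
  ∀ (S : Set ℕ) (n d : ℕ) (β : ℝ → ℕ) (N : ℕ) (W : Ch → ℂ) (R : Nat.Primes → ℂ → ℂ), 0 < n →
    Sol S n d β N W R →
    ∀ (φ χ : Ch) (q : ℕ), Tame n φ → Tame n χ → Disjoint (sup φ) (sup χ) →
    Tst S N (sup φ ∪ sup χ) → q.Prime → orderOf χ = q → q ∣ orderOf φ →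
    (∀ ψ : Ch, Tame n ψ → sup ψ ⊆ sup φ ∪ sup χ → orderOf ψ < orderOf φ → W ψ = 0) →
    ∑ i ∈ un (orderOf φ), W (φ ^ i) * ∏ᶠ l ∈ sup χ, R l (ev φ (l : ℕ) ^ i) +
      ∑ i ∈ (Finset.range (orderOf φ)).filter (fun i => q ∣ i), ∑ b ∈ Finset.Ico 1 q,
        wl W R (sup φ ∪ sup χ) (φ ^ i * χ ^ b) = 0

/-- MIDU: the main identity. -/
theorem t_MIDU (hS : SUPStmt) (hE : EVPStmt) : MIDUStmt := by
  obtain ⟨hsm, hsd, hspow, hscop, -, htmul, htpow, htord, hind⟩ := hS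
  obtain ⟨-, hev, -, -, -⟩ := hE
  intro T n d β N W R hn hSol φ χ q hφ hχ hdis hhit hq hχq hqm hIH
  set m := orderOf φ with hm
  set C := sup φ ∪ sup χ with hC
  have hm0 : 0 < m := (htord n φ hn hφ).1
  have hχ1 : χ ^ q = 1 := by rw [← hχq]; exact pow_orderOf_eq_one χ
  have hφ1 : φ ^ m = 1 := pow_orderOf_eq_one φ
  have hχdvd : ∀ k, q ∣ k → χ ^ k = 1 := by
    rintro k ⟨c, rfl⟩
    rw [pow_mul, hχ1, one_pow]
  have hφdvd : ∀ k, m ∣ k → φ ^ k = 1 := by
    rintro k ⟨c, rfl⟩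
    rw [pow_mul, hφ1, one_pow]
  have htame : ∀ i b : ℕ, Tame n (φ ^ i * χ ^ b) := fun i b =>
    htmul n _ _ (htpow n i φ hφ) (htpow n b χ hχ)
  have hzero : ∀ i b k : ℕ, 0 < k → k < m → (φ ^ i * χ ^ b) ^ k = 1 →
      wl W R C (φ ^ i * χ ^ b) = 0 := by
    intro i b k hk hkm hpow
    have hsub : sup (φ ^ i * χ ^ b) ⊆ sup φ ∪ sup χ :=
      (hsm _ _).trans (Set.union_subset_union (hspow φ i) (hspow χ b))
    rw [wl, hIH _ (htame i b) hsub (lt_of_le_of_lt (orderOf_le_of_pow_eq_one hk hpow) hkm),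
      zero_mul]
  -- non coprime exponents
  have hnc : ∀ i, ¬ i.Coprime m → ∃ k, 0 < k ∧ k < m ∧ φ ^ (i * k) = 1 ∧ (¬ q ∣ i → q ∣ k) := by
    intro i hi
    have hg : 0 < i.gcd m := Nat.gcd_pos_of_pos_right _ hm0
    have hg1 : i.gcd m ≠ 1 := hi
    obtain ⟨k, hk⟩ := Nat.gcd_dvd_right i m
    obtain ⟨j, hj⟩ := Nat.gcd_dvd_left i m
    have hk0 : 0 < k := by
      rcases Nat.eq_zero_or_pos k with h | h
      · rw [h, mul_zero] at hk; omega
      · exact h
    refine ⟨k, hk0, ?_, ?_, ?_⟩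
    · have : 1 * k < i.gcd m * k := Nat.mul_lt_mul_of_pos_right (by omega) hk0
      omega
    · apply hφdvd
      refine ⟨j, ?_⟩
      calc i * k = (i.gcd m * j) * k := by rw [← hj]
        _ = (i.gcd m * k) * j := by ring
        _ = m * j := by rw [← hk]
    · intro hqi
      have h3 : q ∣ i.gcd m * k := by rw [← hk]; exact hqm
      rcases hq.dvd_mul.1 h3 with h4 | h4
      · exact absurd (h4.trans (Nat.gcd_dvd_left i m)) hqi
      · exact h4
  have hf0 : ∀ i, ¬ i.Coprime m → wl W R C (φ ^ i * χ ^ 0) = 0 := by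
    intro i hi
    obtain ⟨k, hk0, hkm, hk1, -⟩ := hnc i hi
    refine hzero i 0 k hk0 hkm ?_
    rw [pow_zero, mul_one, ← pow_mul, hk1]
  have hfb : ∀ i b, ¬ i.Coprime m → ¬ q ∣ i → wl W R C (φ ^ i * χ ^ b) = 0 := by
    intro i b hi hqi
    obtain ⟨k, hk0, hkm, hk1, hk2⟩ := hnc i hi
    refine hzero i b k hk0 hkm ?_
    rw [mul_pow, ← pow_mul, hk1, one_mul, ← pow_mul, hχdvd _ ((hk2 hqi).mul_left b)]
  -- the cyclic equations
  have hcyc : ∀ b ∈ Finset.Ico 1 q,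
      ∑ i ∈ un m, wl W R C (φ ^ i * χ ^ (b * i % q)) = 0 := by
    intro b hb
    rw [Finset.mem_Ico] at hb
    have hbq : b.Coprime q := (Nat.coprime_comm.1 ((Nat.Prime.coprime_iff_not_dvd hq).2 (by
      intro h
      exact absurd (Nat.le_of_dvd (by omega) h) (by omega))))
    have hdis' : Disjoint (sup φ) (sup (χ ^ b)) := hdis.mono_right (hspow χ b)
    have hsup : sup (φ * χ ^ b) = C := by
      rw [hsd φ (χ ^ b) hdis', hscop χ b (by rw [hχq]; exact hbq)]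
    have hord : orderOf (φ * χ ^ b) = m := by
      apply Nat.dvd_antisymm
      · apply orderOf_dvd_of_pow_eq_one
        rw [mul_pow, hφ1, one_mul, ← pow_mul, hχdvd _ (hqm.mul_left b)]
      · have h3 := pow_orderOf_eq_one (φ * χ ^ b)
        rw [mul_pow, ← pow_mul] at h3
        have h4 := hind φ χ hdis (orderOf (φ * χ ^ b)) (b * orderOf (φ * χ ^ b)) 0 0 (by
          rw [h3, pow_zero, pow_zero, mul_one])
        rw [pow_zero] at h4
        exact orderOf_dvd_of_pow_eq_one h4.1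
    have htb : Tame n (φ * χ ^ b) := htmul n _ _ hφ (htpow n b χ hχ)
    have h5 := hSol.one (φ * χ ^ b) htb (by
      rw [hsup]
      exact hhit)
    rw [hsup, hord] at h5
    have h6 : ∀ i ∈ Finset.range m, i ∉ un m → wl W R C ((φ * χ ^ b) ^ i) = 0 := by
      intro i hi hiu
      have hi' : ¬ i.Coprime m := fun hc => hiu (MID.mem_un.2 ⟨Finset.mem_range.1 hi, hc⟩)
      have hlt : orderOf ((φ * χ ^ b) ^ i) < m := by
        have h7 : orderOf ((φ * χ ^ b) ^ i) = m / (m.gcd i) := by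
          rcases Nat.eq_zero_or_pos i with h | h
          · rw [h, pow_zero, orderOf_one, Nat.gcd_zero_right, Nat.div_self hm0]
          · rw [orderOf_pow' _ h.ne', hord]
        rw [h7]
        apply Nat.div_lt_self hm0
        have h8 : m.gcd i ≠ 1 := by
          rw [Nat.gcd_comm]
          exact hi'
        have h9 : 0 < m.gcd i := Nat.gcd_pos_of_pos_left _ hm0
        omega
      rw [wl, hIH _ (htpow n i _ htb) ((hspow _ i).trans hsup.le) hlt, zero_mul]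
    have h7 : ∑ i ∈ un m, wl W R C ((φ * χ ^ b) ^ i) = 0 := by
      rw [← h5]
      exact Finset.sum_subset (Finset.filter_subset _ _) h6
    rw [← h7]
    refine Finset.sum_congr rfl fun i _ => ?_
    rw [mul_pow, ← pow_mul]
    congr 2
    rw [← hχq, pow_mod_orderOf]
  have hS0 : ∑ i ∈ un m, ∑ b ∈ Finset.Ico 1 q, wl W R C (φ ^ i * χ ^ b) = 0 := by
    have h3 : ∀ i ∈ un m, ∑ b ∈ Finset.Ico 1 q, wl W R C (φ ^ i * χ ^ b) =
        ∑ b ∈ Finset.Ico 1 q, wl W R C (φ ^ i * χ ^ (b * i % q)) := by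
      intro i hi
      have hiq : i.Coprime q := Nat.Coprime.coprime_dvd_right hqm (MID.mem_un.1 hi).2
      exact (MID.sum_perm hq hiq fun b => wl W R C (φ ^ i * χ ^ b)).symm
    rw [Finset.sum_congr rfl h3, Finset.sum_comm]
    exact Finset.sum_eq_zero hcyc
  -- the equation for the product
  have h2' := hSol.two φ χ hφ hχ ⟨q, hq, hχ1⟩ hdis hhit
  rw [hχq] at h2'
  have hsplit : ∀ i, ∑ b ∈ Finset.range q, wl W R C (φ ^ i * χ ^ b) =
      wl W R C (φ ^ i * χ ^ 0) + ∑ b ∈ Finset.Ico 1 q, wl W R C (φ ^ i * χ ^ b) := by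
    intro i
    rw [Finset.range_eq_Ico, Finset.sum_eq_sum_Ico_succ_bot hq.pos]
  have h3 : ∑ i ∈ Finset.range m, wl W R C (φ ^ i * χ ^ 0) +
      ∑ i ∈ Finset.range m, ∑ b ∈ Finset.Ico 1 q, wl W R C (φ ^ i * χ ^ b) = 0 := by
    rw [← Finset.sum_add_distrib, ← h2']
    exact Finset.sum_congr rfl fun i _ => (hsplit i).symm
  have h4 : ∑ i ∈ Finset.range m, wl W R C (φ ^ i * χ ^ 0) =
      ∑ i ∈ un m, W (φ ^ i) * ∏ᶠ l ∈ sup χ, R l (ev φ (l : ℕ) ^ i) := by
    have h5 : ∑ i ∈ un m, wl W R C (φ ^ i * χ ^ 0) =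
        ∑ i ∈ Finset.range m, wl W R C (φ ^ i * χ ^ 0) := by
      refine Finset.sum_subset (Finset.filter_subset _ _) fun i hi hiu => hf0 i fun hc => ?_
      exact hiu (MID.mem_un.2 ⟨Finset.mem_range.1 hi, hc⟩)
    rw [← h5]
    refine Finset.sum_congr rfl fun i hi => ?_
    rw [pow_zero, mul_one, wl, hscop φ i (MID.mem_un.1 hi).2]
    have h6 : C \ sup φ = sup χ := by
      rw [hC, Set.union_sdiff_left, sdiff_eq_left]
      exact hdis.symm
    rw [h6]
    congr 1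
    refine finprod_mem_congr rfl fun l hl => ?_
    rw [hev φ l i hφ.fin (Set.disjoint_right.1 hdis hl)]
  have h5 : ∑ i ∈ Finset.range m, ∑ b ∈ Finset.Ico 1 q, wl W R C (φ ^ i * χ ^ b) =
      ∑ i ∈ (Finset.range m).filter (fun i => q ∣ i), ∑ b ∈ Finset.Ico 1 q,
        wl W R C (φ ^ i * χ ^ b) := by
    rw [← Finset.sum_filter_add_sum_filter_not (Finset.range m) (fun i => i.Coprime m)]
    have h6 : ∑ i ∈ (Finset.range m).filter (fun i => i.Coprime m), ∑ b ∈ Finset.Ico 1 q,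
        wl W R C (φ ^ i * χ ^ b) = 0 := hS0
    rw [h6, zero_add]
    symm
    apply Finset.sum_subset
    · intro i hi
      rw [Finset.mem_filter] at hi ⊢
      refine ⟨hi.1, fun hc => ?_⟩
      have h7 : q ∣ i.gcd m := Nat.dvd_gcd hi.2 hqm
      rw [Nat.Coprime.gcd_eq_one hc] at h7
      exact hq.one_lt.ne' (Nat.dvd_one.1 h7)
    · intro i hi hni
      rw [Finset.mem_filter] at hi hni
      refine Finset.sum_eq_zero fun b _ => hfb i b hi.2 fun hqi => hni ⟨hi.1, hqi⟩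
  rw [h4, h5] at h3
  exact h3

end Pool.DPC
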