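import Pool.Agent.H29.DPU.Defs

/-!
# DPU: finite injective systems stay injective
-/

set_option autoImplicit false

namespace Pool.DPC

open Polynomial Complex

/-- A system of linear equations with only the zero solution and finitely many different rows:
finitely many rows are enough, also after a small change of the coefficients. -/
theorem robust {ι J : Type*} [Fintype ι] (a : J → ι → ℂ) (hfin : (Set.range a).Finite)
    (hinj : ∀ w : ι → ℂ, (∀ j, ∑ i, w i * a j i = 0) → w = 0) :
    ∃ (F : Set J) (ε : ℝ), F.Finite ∧ 0 < ε ∧ ∀ b : J → ι → ℂ,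
      (∀ j ∈ F, ∀ i, ‖b j i - a j i‖ < ε) →
      ∀ w : ι → ℂ, (∀ j ∈ F, ∑ i, w i * b j i = 0) → w = 0 := by
  classical
  have hfr : Finite (Set.range a) := hfin
  choose g hg using fun v : Set.range a => v.2
  set F : Set J := Set.range g with hF
  have hFf : F.Finite := Set.finite_range g
  have hrep : ∀ j, ∃ j' ∈ F, a j' = a j := fun j => ⟨g ⟨a j, j, rfl⟩, ⟨_, rfl⟩, hg _⟩
  have : Fintype F := hFf.fintype
  let T : (ι → ℂ) →ₗ[ℂ] (F → ℂ) :=
    { toFun := fun w j => ∑ i, w i * a j i
      map_add' := by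
        intro w w'
        funext j
        simp only [Pi.add_apply, add_mul, Finset.sum_add_distrib]
      map_smul' := by
        intro c w
        funext j
        simp only [Pi.smul_apply, smul_eq_mul, RingHom.id_apply, Finset.mul_sum, mul_assoc] }
  have hker : LinearMap.ker T = ⊥ := by
    rw [LinearMap.ker_eq_bot']
    intro w hw
    refine hinj w fun j => ?_
    obtain ⟨j', hj', he⟩ := hrep j
    have := congrFun hw ⟨j', hj'⟩
    rw [← he]
    exact this
  obtain ⟨K, hK, hanti⟩ := T.exists_antilipschitzWith hker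
  set c : ℝ := (K : ℝ) * Fintype.card ι with hc
  have hc0 : 0 ≤ c := by positivity
  refine ⟨F, 1 / (2 * (c + 1)), hFf, by positivity, fun b hb w hw => ?_⟩
  have h1 : ‖w‖ ≤ K * ‖T w‖ := by
    have := hanti.le_mul_dist w 0
    rwa [dist_zero_right, map_zero, dist_zero_right] at this
  have h2 : ‖T w‖ ≤ Fintype.card ι * (‖w‖ * (1 / (2 * (c + 1)))) := by
    rw [pi_norm_le_iff_of_nonneg (by positivity)]
    intro j
    have h3 : T w j = ∑ i, w i * (a j i - b j i) := by
      have h4 := hw j j.2
      have h5 : ∑ i, w i * (a j i - b j i) = ∑ i, w i * a j i - ∑ i, w i * b j i := by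
        rw [← Finset.sum_sub_distrib]
        exact Finset.sum_congr rfl fun i _ => by ring
      rw [h5, h4, sub_zero]
      rfl
    rw [h3]
    refine (norm_sum_le _ _).trans ?_
    have h6 : ∀ i ∈ (Finset.univ : Finset ι), ‖w i * (a j i - b j i)‖ ≤
        ‖w‖ * (1 / (2 * (c + 1))) := by
      intro i _
      rw [norm_mul]
      refine mul_le_mul (norm_le_pi_norm w i) ?_ (norm_nonneg _) (norm_nonneg _)
      rw [norm_sub_rev]
      exact (hb j j.2 i).le
    refine (Finset.sum_le_sum h6).trans ?_
    rw [Finset.sum_const, Finset.card_univ, nsmul_eq_mul]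
  have h3 : ‖w‖ ≤ ‖w‖ * (1 / 2) := by
    calc ‖w‖ ≤ K * (Fintype.card ι * (‖w‖ * (1 / (2 * (c + 1))))) :=
          h1.trans (mul_le_mul_of_nonneg_left h2 K.2)
      _ = ‖w‖ * (c / (2 * (c + 1))) := by rw [hc]; ring
      _ ≤ ‖w‖ * (1 / 2) := by
          refine mul_le_mul_of_nonneg_left ?_ (norm_nonneg _)
          rw [div_le_div_iff₀ (by positivity) (by norm_num)]
          linarith
  have h4 : ‖w‖ = 0 := by
    have := norm_nonneg w
    linarith
  exact norm_eq_zero.1 h4

end Pool.DPC
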