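import Pool.Agent.H29.DPU.Fam
import Pool.Agent.H29.DPU.Mid

/-!
# DPU: the step when `q ^ 2` divides the order
-/

set_option autoImplicit false

namespace Pool.DPC

open Polynomial Complex

/-- an auxiliary prime with its character -/
theorem aux_prime (hD : DIRTStmt) (hA : AUXStmt) {S : Set ℕ} (hS : Rich S) {C : Set Nat.Primes}
    (hC : C.Finite) {u : Un} {q : Nat.Primes} (hu : u q = 1) {n : ℕ} (hq : (q : ℕ) ∣ n) (B : ℕ) :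
    ∃ (p : Nat.Primes) (χ : Ch), (p : ℕ) ∈ S ∧ B < (p : ℕ) ∧ (p : ℕ) % (4 * (q : ℕ)) = 1 ∧ p ∉ C ∧
      (∀ φ : Ch, sup φ ⊆ C → ev φ (p : ℕ) = pair φ u) ∧ Tame n χ ∧ sup χ = {p} ∧
      orderOf χ = (q : ℕ) := by
  obtain ⟨p, h1, h2, h3, h4, h5⟩ := hD S hS C hC u q hu B
  obtain ⟨χ, h6, h7, h8⟩ := hA n q q.2 hq p h3
  exact ⟨p, χ, h1, h2, h3, h4, h5, h6, h7, h8⟩

theorem sgn_sq (d : ℕ) : ((-1 : ℂ) ^ d) * (-1) ^ d = 1 := by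
  rw [← mul_pow]; norm_num

theorem sgn_norm (d : ℕ) : ‖((-1 : ℂ) ^ d)‖ = 1 := by
  rw [norm_pow, norm_neg, norm_one, one_pow]

/-- one added prime -/
theorem close_one {d : ℕ} {β : ℝ → ℕ} {R : Nat.Primes → ℂ → ℂ} (hL : LimU d β R) {ε : ℝ}
    (hε : 0 < ε) {p : Nat.Primes} (hp : β ε < (p : ℕ)) {x : ℂ} (hx : ‖x‖ = 1) (i : ℕ) :
    ‖(-1) ^ d * R p (x ^ i) - (x⁻¹) ^ (d * i)‖ < ε := by
  have h1 := hL ε hε p hp (x ^ i) (by rw [norm_pow, hx, one_pow])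
  have h2 : ((x ^ i)⁻¹) ^ d = (x⁻¹) ^ (d * i) := by
    rw [← inv_pow, ← pow_mul, mul_comm]
  have h3 : (-1) ^ d * R p (x ^ i) - (x⁻¹) ^ (d * i) =
      (-1) ^ d * (R p (x ^ i) - (-1) ^ d * ((x ^ i)⁻¹) ^ d) := by
    rw [h2]
    linear_combination ((x⁻¹) ^ (d * i)) * sgn_sq d
  rw [h3, norm_mul, sgn_norm, one_mul]
  exact h1

theorem t_STCU (hMID : MIDUStmt) (hDIR : DIRTStmt) (hAUX : AUXStmt) (hORT : ORTTStmt)
    (hEVP : EVPStmt) (hSUP : SUPStmt) {S : Set ℕ} {n d : ℕ} {β : ℝ → ℕ} (hS : Rich S)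
    (hn : 0 < n) (hnd : Gd n d) (φ : Ch) (q : Nat.Primes) (hφ : Tame n φ)
    (hq2 : (q : ℕ) ^ 2 ∣ orderOf φ) (hφq : φ q ^ 2 = 1) (hIH : IHU S n d β (orderOf φ)) :
    Kill S n d β φ := by
  obtain ⟨s1, s2, s3, s4, s5, s6, s7, s8, s9⟩ := hSUP
  obtain ⟨hm0, hmn⟩ := s8 n φ hn hφ
  obtain ⟨F, ε, hF, hFq, hε, hrob⟩ := one_family hORT hEVP d φ q hφ.fin hm0 (hnd.of_dvd hmn) hφq
  obtain ⟨m, hm⟩ : ∃ m, m = orderOf φ := ⟨_, rfl⟩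
  rw [← hm] at hm0 hmn hq2 hIH hrob
  have hqp : (q : ℕ).Prime := q.2
  have hqm : (q : ℕ) ∣ m := (dvd_pow_self (q : ℕ) two_ne_zero).trans hq2
  have hm1 : 1 < m := lt_of_lt_of_le hqp.one_lt (Nat.le_of_dvd hm0 hqm)
  have hch : ∀ u : Un, u ∈ F → ∃ (p : Nat.Primes) (χ : Ch), (p : ℕ) ∈ S ∧ β ε < (p : ℕ) ∧
      (p : ℕ) % (4 * (q : ℕ)) = 1 ∧ p ∉ sup φ ∧
      (∀ ψ : Ch, sup ψ ⊆ sup φ → ev ψ (p : ℕ) = pair ψ u) ∧ Tame n χ ∧ sup χ = {p} ∧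
      orderOf χ = (q : ℕ) := fun u hu =>
    aux_prime hDIR hAUX hS hφ.fin (hFq u hu) (hqm.trans hmn) _
  choose! p χ hp using hch
  set C : Set Nat.Primes := sup φ ∪ p '' F with hC
  have hCf : C.Finite := hφ.fin.union (hF.image p)
  obtain ⟨N₁, hN₁⟩ := kill_fin (S := S) (n := n) (d := d) (β := β)
    (Φ := {ψ : Ch | Tame n ψ ∧ sup ψ ⊆ C ∧ orderOf ψ < m})
    ((fin_sup hCf).subset fun ψ hψ => hψ.2.1) (fun ψ hψ => hIH ψ hψ.1 hψ.2.2)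
  obtain ⟨N₂, hN₂⟩ := bd_fin hCf
  refine ⟨max N₁ N₂, fun W R hSol => ?_⟩
  have h0 : ∀ ψ : Ch, Tame n ψ → sup ψ ⊆ C → orderOf ψ < m → W ψ = 0 := fun ψ h1 h2 h3 =>
    hN₁ W R (hSol.mono (le_max_left _ _)) ψ ⟨h1, h2, h3⟩
  have h1m : (1 : ℕ) ∈ un m := by
    unfold un
    rw [Finset.mem_filter, Finset.mem_range]
    exact ⟨hm1, Nat.coprime_one_left m⟩
  have hmain := hrob (fun u i => (-1) ^ d * R (p u) (pair φ u ^ i)) (fun u hu i _ =>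
    close_one hSol.lim hε (hp u hu).2.1 (hEVP.2.2.2.2 φ u n hφ.fin hn hφ.exp).2 i)
    (fun i => W (φ ^ i)) ?_ 1 h1m
  · rwa [pow_one] at hmain
  intro u hu
  obtain ⟨hpS, hpB, hp4, hpC, hpu, hχ, hχs, hχo⟩ := hp u hu
  have hsub : sup φ ∪ sup (χ u) ⊆ C := by
    rw [hχs]
    exact Set.union_subset Set.subset_union_left (Set.singleton_subset_iff.2 (Or.inr ⟨u, hu, rfl⟩))
  have hdis : Disjoint (sup φ) (sup (χ u)) := by
    rw [hχs]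
    exact Set.disjoint_singleton_right.mpr hpC
  have h2 := hMID S n d β (max N₁ N₂) W R hn hSol φ (χ u) q hφ hχ hdis
    ⟨⟨p u, Or.inr (by rw [hχs]; exact rfl), hpS⟩, fun l hl =>
      (hN₂ l (hsub hl)).trans (le_max_right _ _)⟩ hqp hχo (hm ▸ hqm)
    (fun ψ h3 h4 h5 => h0 ψ h3 (h4.trans hsub) (hm ▸ h5))
  rw [← hm] at h2
  have h3 : ∑ i ∈ (Finset.range m).filter (fun i => (q : ℕ) ∣ i),
      ∑ b ∈ Finset.Ico 1 (q : ℕ), wl W R (sup φ ∪ sup (χ u)) (φ ^ i * χ u ^ b) = 0 := by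
    refine Finset.sum_eq_zero fun i hi => Finset.sum_eq_zero fun b _ => ?_
    obtain ⟨_, hqi⟩ := Finset.mem_filter.mp hi
    have h4 : (φ ^ i * χ u ^ b) ^ (m / (q : ℕ)) = 1 := by
      rw [mul_pow, ← pow_mul, ← pow_mul]
      have h5 : φ ^ (i * (m / (q : ℕ))) = 1 := by
        obtain ⟨c, rfl⟩ := hqi
        rw [mul_assoc, mul_left_comm, Nat.mul_div_cancel' hqm, mul_comm, pow_mul, hm,
          pow_orderOf_eq_one, one_pow]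
      have h6 : χ u ^ (b * (m / (q : ℕ))) = 1 := by
        obtain ⟨c, hc⟩ := hq2
        have h7 : m / (q : ℕ) = q * c := by
          rw [hc, sq, mul_assoc, Nat.mul_div_cancel_left _ hqp.pos]
        rw [h7, mul_left_comm, pow_mul]
        rw [← hχo, pow_orderOf_eq_one, one_pow]
      rw [h5, h6, mul_one]
    have h5 : 0 < m / (q : ℕ) := Nat.div_pos (Nat.le_of_dvd hm0 hqm) hqp.pos
    have h6 : orderOf (φ ^ i * χ u ^ b) < m :=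
      lt_of_le_of_lt (orderOf_le_of_pow_eq_one h5 h4) (Nat.div_lt_self hm0 hqp.one_lt)
    have h7 : W (φ ^ i * χ u ^ b) = 0 :=
      h0 _ (s6 n _ _ (s7 n i φ hφ) (s7 n b (χ u) hχ))
        (((s1 _ _).trans (Set.union_subset_union (s3 φ i) (s3 (χ u) b))).trans hsub) h6
    unfold wl
    rw [h7, zero_mul]
  rw [h3, add_zero, hχs] at h2
  have h4 : ∑ i ∈ un m, W (φ ^ i) * ((-1) ^ d * R (p u) (pair φ u ^ i)) =
      (-1) ^ d * ∑ i ∈ un m, W (φ ^ i) * ∏ᶠ l ∈ ({p u} : Set Nat.Primes), R l (ev φ (l : ℕ) ^ i) := by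
    rw [Finset.mul_sum]
    refine Finset.sum_congr rfl fun i _ => ?_
    rw [finprod_mem_singleton, hpu φ le_rfl]
    ring
  rw [h4, h2, mul_zero]

end Pool.DPC
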